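import Mathlib

set_option autoImplicit false

/-!
Definitions for the Ax–Schanuel inequality for the Gamma function.
-/

namespace Pool.Agent.J4H74.AS

/-- `f_1, …, f_n` are analytic functions on the connected open subset `D` of `ℂ ^ d`, none of them is constant,
`f_i` is not in `ℚ f_j + ℚ` for `i ≠ j`, and `d` of them have linearly independent differentials at some point
of `D`. -/
def Germ {d n : ℕ} (D : Set (Fin d → ℂ)) (f : Fin n → (Fin d → ℂ) → ℂ) : Prop :=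
  IsOpen D ∧ IsPreconnected D ∧ (∀ i, AnalyticOnNhd ℂ (f i) D) ∧
    (∀ i, ∀ v : ℂ, ¬ ∀ t ∈ D, f i t = v) ∧
    (∀ i j, i ≠ j → ∀ p q : ℚ, ¬ ∀ t ∈ D, f i t = p * f j t + q) ∧
    ∃ t₀ ∈ D, ∃ e : Fin d → Fin n, LinearIndependent ℂ (fun k => fderiv ℂ (f (e k)) t₀)

/-- the transcendence degree of `ℂ(f_1, …, f_n)` is at most `d`: any `d + 1` of the functions are algebraically
dependent over `ℂ` -/
def Low {d n : ℕ} (D : Set (Fin d → ℂ)) (f : Fin n → (Fin d → ℂ) → ℂ) : Prop :=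
  ∀ c : Fin (d + 1) → Fin n, ∃ P : MvPolynomial (Fin (d + 1)) ℂ, P ≠ 0 ∧
    ∀ t ∈ D, MvPolynomial.eval (fun k => f (c k) t) P = 0

/-- the transcendence degree of `ℂ(f_1, …, f_n)` is `n`: the functions are algebraically independent over `ℂ` -/
def High {d n : ℕ} (D : Set (Fin d → ℂ)) (f : Fin n → (Fin d → ℂ) → ℂ) : Prop :=
  ∀ P : MvPolynomial (Fin n) ℂ, P ≠ 0 → ∃ t ∈ D, MvPolynomial.eval (fun i => f i t) P ≠ 0

/-- the transcendence degree of `ℂ(f_1, …, f_n, Γ(f_1), …, Γ(f_n))` is at least `n + d`: there are sets `I`, `J` of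
indices with `|I| + |J| = n + d` such that the functions `f_i`, `i ∈ I`, and `Γ(f_j)`, `j ∈ J`, are
algebraically independent over `ℂ` -/
def Full {d n : ℕ} (D : Set (Fin d → ℂ)) (f : Fin n → (Fin d → ℂ) → ℂ) : Prop :=
  ∃ I J : Finset (Fin n), I.card + J.card = n + d ∧
    ∀ P : MvPolynomial (I ⊕ J) ℂ, P ≠ 0 → ∃ t ∈ D, (∀ j ∈ J, ∀ k : ℕ, f j t ≠ -k) ∧
      MvPolynomial.eval (Sum.elim (fun i : I => f i t) fun j : J => Complex.Gamma (f j t)) P ≠ 0

end Pool.Agent.J4H74.AS
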