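import Pool.Agent.J4H74.AS.Full

set_option autoImplicit false

/-!
Slices: the inequality for curves in codimension at most `c` gives it for all germs in codimension at most `c`.
-/

namespace Pool.Agent.J4H74.AS.Slice

open Filter Topology Set

/-- families -/
theorem families {X σ : Type} [TopologicalSpace X] {d n : ℕ} {h : σ → X → ℂ}
    (hc : ∀ i, Continuous (h i))
    (hi : ∀ P : MvPolynomial σ ℂ, P ≠ 0 → ∃ x, MvPolynomial.eval (fun i => h i x) P ≠ 0)
    {D : X → Set (Fin d → ℂ)} {f : X → Fin n → (Fin d → ℂ) → ℂ}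
    (hd : Dense {x | Full (D x) (f x)}) :
    ∃ I J : Finset (Fin n), I.card + J.card = n + d ∧
      ∀ P : MvPolynomial (I ⊕ J) (MvPolynomial σ ℂ), P ≠ 0 →
        ∃ x, ∃ t ∈ D x, (∀ j ∈ J, ∀ k : ℕ, f x j t ≠ -k) ∧
          MvPolynomial.eval (Sum.elim (fun i : I => f x i t) fun j : J => Complex.Gamma (f x j t))
            (P.map (MvPolynomial.eval fun i => h i x)) ≠ 0 := by
  classical
  by_contra hcon
  push Not at hcon
  have hcon' : ∀ q : Finset (Fin n) × Finset (Fin n),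
      ∃ P : MvPolynomial (q.1 ⊕ q.2) (MvPolynomial σ ℂ), P ≠ 0 ∧
        (q.1.card + q.2.card = n + d → ∀ x, ∀ t ∈ D x, (∀ j ∈ q.2, ∀ k : ℕ, f x j t ≠ -k) →
          MvPolynomial.eval (Sum.elim (fun i : q.1 => f x i t)
            fun j : q.2 => Complex.Gamma (f x j t))
            (P.map (MvPolynomial.eval fun i => h i x)) = 0) := by
    intro q
    by_cases hq : q.1.card + q.2.card = n + d
    · obtain ⟨P, hP, hP0⟩ := hcon q.1 q.2 hq
      exact ⟨P, hP, fun _ => hP0⟩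
    · exact ⟨1, one_ne_zero, fun h0 => absurd h0 hq⟩
  choose P hP hP0 using hcon'
  choose m hm using fun q => MvPolynomial.ne_zero_iff.1 (hP q)
  obtain ⟨x₀, hx₀⟩ := hi (∏ q, (P q).coeff (m q)) (Finset.prod_ne_zero_iff.2 fun q _ => hm q)
  have hcont : Continuous fun x => MvPolynomial.eval (fun i => h i x) (∏ q, (P q).coeff (m q)) := by
    have h1 : Continuous fun x => (fun i => h i x) := continuous_pi hc
    exact (MvPolynomial.continuous_eval _).comp h1
  have hopen : IsOpen {x | MvPolynomial.eval (fun i => h i x) (∏ q, (P q).coeff (m q)) ≠ 0} :=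
    isOpen_ne_fun hcont continuous_const
  obtain ⟨x, hx, hgood⟩ := hd.inter_open_nonempty _ hopen ⟨x₀, hx₀⟩
  obtain ⟨I, J, hIJ, hF⟩ := hgood
  have hne : MvPolynomial.eval (fun i => h i x) ((P (I, J)).coeff (m (I, J))) ≠ 0 := by
    intro h0
    apply hx
    rw [map_prod]
    exact Finset.prod_eq_zero (Finset.mem_univ (I, J)) h0
  obtain ⟨t, ht, hpole, hne2⟩ := hF ((P (I, J)).map (MvPolynomial.eval fun i => h i x)) (by
    intro h0
    apply hne
    rw [← MvPolynomial.coeff_map, h0, MvPolynomial.coeff_zero])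
  exact hne2 (hP0 (I, J) hIJ x t ht hpole)

/-- towers -/
theorem towers {d n d' n' : ℕ} {D : Set (Fin d → ℂ)} {f : Fin n → (Fin d → ℂ) → ℂ}
    (hD : IsOpen D) (hf : ∀ i, AnalyticOnNhd ℂ (f i) D) (hFull : Full D f)
    {D' : (Fin d → ℂ) → Set (Fin d' → ℂ)} {g : (Fin d → ℂ) → Fin n' → (Fin d' → ℂ) → ℂ}
    (hd : D ⊆ closure {x | x ∈ D ∧ Full (D' x) (g x)}) :
    ∃ (I J : Finset (Fin n)) (I' J' : Finset (Fin n')),
      (I.card + J.card) + (I'.card + J'.card) = (n + n') + (d + d') ∧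
      ∀ P : MvPolynomial ((I' ⊕ J') ⊕ (I ⊕ J)) ℂ, P ≠ 0 →
        ∃ x ∈ D, ∃ t ∈ D' x, (∀ j ∈ J, ∀ k : ℕ, f j x ≠ -k) ∧ (∀ j ∈ J', ∀ k : ℕ, g x j t ≠ -k) ∧
          MvPolynomial.eval (Sum.elim
            (Sum.elim (fun i : I' => g x i t) fun j : J' => Complex.Gamma (g x j t))
            (Sum.elim (fun i : I => f i x) fun j : J => Complex.Gamma (f j x))) P ≠ 0 := by
  classical
  obtain ⟨I, J, hIJ, hF⟩ := hFull
  have hgam : ∀ s : ℂ, (∀ k : ℕ, s ≠ -k) ↔ (Complex.Gamma s)⁻¹ ≠ 0 := by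
    intro s
    rw [Ne, inv_eq_zero, Complex.Gamma_eq_zero_iff]
    push Not
    rfl
  set X₀ : Set (Fin d → ℂ) := {x | x ∈ D ∧ ∀ j ∈ J, ∀ k : ℕ, f j x ≠ -k} with hX₀
  have hX₀o : IsOpen X₀ := by
    have h1 : X₀ = D ∩ (fun x => ∏ j ∈ J, (Complex.Gamma (f j x))⁻¹) ⁻¹' {0}ᶜ := by
      ext x
      simp only [hX₀, mem_setOf_eq, mem_inter_iff, mem_preimage, mem_compl_iff, mem_singleton_iff,
        Finset.prod_eq_zero_iff, hgam]
      push Not
      rfl
    rw [h1]
    refine ContinuousOn.isOpen_inter_preimage ?_ hD isOpen_compl_singleton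
    refine continuousOn_finset_prod _ fun j _ => ?_
    exact Complex.differentiable_one_div_Gamma.continuous.comp_continuousOn (hf j).continuousOn
  set hh : (I ⊕ J) → X₀ → ℂ := fun q x =>
    Sum.elim (fun i : I => f i x.1) (fun j : J => Complex.Gamma (f j x.1)) q with hhh
  have hcont : ∀ q, Continuous (hh q) := by
    intro q
    rw [continuous_iff_continuousAt]
    intro x
    rcases q with i | j
    · exact ((hf i x.1 x.2.1).continuousAt).comp continuous_subtype_val.continuousAt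
    · have h1 : ContinuousAt Complex.Gamma (f j x.1) :=
        (Complex.differentiableAt_Gamma _ (x.2.2 j j.2)).continuousAt
      have h2 : ContinuousAt (f j) x.1 := (hf j x.1 x.2.1).continuousAt
      exact (h1.comp (f := f j) h2).comp continuous_subtype_val.continuousAt
  obtain ⟨I', J', hIJ', hF'⟩ := families (X := X₀) (σ := I ⊕ J) (h := hh) hcont
    (by
      intro P hP
      obtain ⟨t, ht, hpole, hne⟩ := hF P hP
      refine ⟨⟨t, ht, hpole⟩, ?_⟩
      have h1 : (fun i => hh i ⟨t, ht, hpole⟩) =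
          Sum.elim (fun i : I => f i t) fun j : J => Complex.Gamma (f j t) := by
        funext q
        rfl
      rw [h1]
      exact hne)
    (D := fun x => D' x.1) (f := fun x => g x.1) (d := d') (n := n')
    (by
      rw [dense_iff_inter_open]
      rintro U hU ⟨x, hx⟩
      obtain ⟨V, hV, rfl⟩ := isOpen_induced_iff.1 hU
      have h1 : x.1 ∈ closure {x | x ∈ D ∧ Full (D' x) (g x)} := hd x.2.1
      obtain ⟨z, ⟨hzV, hzX⟩, hz⟩ := mem_closure_iff.1 h1 (V ∩ X₀) (hV.inter hX₀o) ⟨hx, x.2⟩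
      exact ⟨⟨z, hzX⟩, hzV, hz.2⟩)
  refine ⟨I, J, I', J', by omega, fun P hP => ?_⟩
  obtain ⟨x, t, ht, hpole, hne⟩ := hF' (MvPolynomial.sumAlgEquiv ℂ (I' ⊕ J') (I ⊕ J) P) (by
    rw [Ne, EmbeddingLike.map_eq_zero_iff]
    exact hP)
  refine ⟨x.1, x.2.1, t, ht, x.2.2, hpole, ?_⟩
  rw [eval_sum] at hne
  exact hne

lemma enum {n : ℕ} (C : Finset (Fin n)) : ∃ κ : Fin C.card → Fin n, Function.Injective κ ∧
    ∀ i, i ∈ C ↔ ∃ a, κ a = i := by
  refine ⟨fun a => (C.equivFin.symm a : Fin n), ?_, fun i => ⟨fun h => ?_, ?_⟩⟩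
  · exact Subtype.val_injective.comp C.equivFin.symm.injective
  · exact ⟨C.equivFin ⟨i, h⟩, by simp⟩
  · rintro ⟨a, rfl⟩
    exact (C.equivFin.symm a).2

lemma li_proj (d : ℕ) : LinearIndependent ℂ
    (fun k : Fin d => (ContinuousLinearMap.proj (R := ℂ) (φ := fun _ : Fin d => ℂ) k)) := by
  classical
  rw [Fintype.linearIndependent_iff]
  intro g hg k
  have h1 := congrArg (fun L : (Fin d → ℂ) →L[ℂ] ℂ => L (Pi.single k 1)) hg
  simpa [Pi.single_apply] using h1

/-- the point with first coordinate `x` -/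
def cn {d : ℕ} (x : ℂ) (s : Fin d → ℂ) : Fin (d + 1) → ℂ := Fin.cons x s

lemma cn_zero {d : ℕ} (x : ℂ) (s : Fin d → ℂ) : cn x s 0 = x := rfl

lemma cn_succ {d : ℕ} (x : ℂ) (s : Fin d → ℂ) (k : Fin d) : cn x s k.succ = s k := rfl

lemma cn_tail {d : ℕ} (s : Fin (d + 1) → ℂ) : cn (s 0) (Fin.tail s) = s := Fin.cons_self_tail s

lemma mem_cn {d : ℕ} {c₀ : Fin (d + 1) → ℂ} {r : ℝ} (hr : 0 < r) {x : ℂ} {s : Fin d → ℂ} :
    cn x s ∈ Metric.ball c₀ r ↔ dist x (c₀ 0) < r ∧ s ∈ Metric.ball (Fin.tail c₀) r := by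
  rw [Metric.mem_ball, Metric.mem_ball, dist_pi_lt_iff hr, dist_pi_lt_iff hr, Fin.forall_fin_succ]
  rfl

lemma mem_one {a : ℂ} {r : ℝ} (hr : 0 < r) {x : Fin 1 → ℂ} :
    x ∈ Metric.ball (fun _ : Fin 1 => a) r ↔ dist (x 0) a < r := by
  rw [Metric.mem_ball, dist_pi_lt_iff hr]
  simp

lemma an1 {d : ℕ} (s : Fin d → ℂ) (x : Fin 1 → ℂ) :
    AnalyticAt ℂ (fun x : Fin 1 → ℂ => cn (x 0) s) x := by
  refine analyticAt_pi_iff.2 (Fin.cases ?_ fun k => ?_)
  · exact (ContinuousLinearMap.proj (R := ℂ) (φ := fun _ : Fin 1 => ℂ) 0).analyticAt x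
  · exact analyticAt_const

lemma an2 {d : ℕ} (x : ℂ) (s : Fin d → ℂ) :
    AnalyticAt ℂ (fun s : Fin d → ℂ => cn x s) s := by
  refine analyticAt_pi_iff.2 (Fin.cases ?_ fun k => ?_)
  · exact analyticAt_const
  · exact (ContinuousLinearMap.proj (R := ℂ) (φ := fun _ : Fin d => ℂ) k).analyticAt s

lemma an3 {d : ℕ} (c : Fin d → ℂ) (s : Fin (d + 1) → ℂ) :
    AnalyticAt ℂ (fun s : Fin (d + 1) → ℂ => cn (s 0) c) s := by
  refine analyticAt_pi_iff.2 (Fin.cases ?_ fun k => ?_)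
  · exact (ContinuousLinearMap.proj (R := ℂ) (φ := fun _ : Fin (d + 1) => ℂ) 0).analyticAt s
  · exact analyticAt_const

/-- the first coordinates of the slices on which `w` is not zero -/
def live {d : ℕ} (c₀ : Fin (d + 1) → ℂ) (r : ℝ) (w : (Fin (d + 1) → ℂ) → ℂ) : Set (Fin 1 → ℂ) :=
  {x | x ∈ Metric.ball (fun _ => c₀ 0) r ∧
    ∃ s ∈ Metric.ball (Fin.tail c₀) r, w (cn (x 0) s) ≠ 0}

/-- an analytic function which is not zero is not zero on most slices -/
lemma live_open {d : ℕ} {c₀ : Fin (d + 1) → ℂ} {r : ℝ} (hr : 0 < r)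
    {w : (Fin (d + 1) → ℂ) → ℂ} (hw : AnalyticOnNhd ℂ w (Metric.ball c₀ r)) :
    IsOpen (live c₀ r w) := by
  rw [isOpen_iff_mem_nhds]
  rintro x ⟨hx, s, hs, hne⟩
  have hcont : ContinuousAt (fun x : Fin 1 → ℂ => w (cn (x 0) s)) x :=
    ContinuousAt.comp (g := w) (f := fun x : Fin 1 → ℂ => cn (x 0) s)
      (hw _ ((mem_cn hr).2 ⟨(mem_one hr).1 hx, hs⟩)).continuousAt (an1 s x).continuousAt
  filter_upwards [Metric.isOpen_ball.mem_nhds hx, hcont.eventually_ne hne] with x' h1 h2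
  exact ⟨h1, s, hs, h2⟩

lemma live_dense {d : ℕ} {c₀ : Fin (d + 1) → ℂ} {r : ℝ} (hr : 0 < r)
    {w : (Fin (d + 1) → ℂ) → ℂ} (hw : AnalyticOnNhd ℂ w (Metric.ball c₀ r))
    (h0 : ∃ s ∈ Metric.ball c₀ r, w s ≠ 0) :
    Metric.ball (fun _ => c₀ 0) r ⊆ closure (live c₀ r w) := by
  intro x₁ hx₁
  rw [mem_closure_iff_nhds]
  intro V hV
  by_contra hcon
  rw [not_nonempty_iff_eq_empty] at hcon
  have hz : ∀ x ∈ V, x ∈ Metric.ball (fun _ => c₀ 0) r → ∀ s ∈ Metric.ball (Fin.tail c₀) r,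
      w (cn (x 0) s) = 0 := by
    intro x hxV hx s hs
    by_contra hne
    have h1 : x ∈ V ∩ live c₀ r w := ⟨hxV, hx, s, hs, hne⟩
    rw [hcon] at h1
    exact h1
  obtain ⟨s₀, hs₀, hne⟩ := h0
  apply hne
  have hmem : cn (x₁ 0) (Fin.tail c₀) ∈ Metric.ball c₀ r :=
    (mem_cn hr).2 ⟨(mem_one hr).1 hx₁, Metric.mem_ball_self hr⟩
  have hc1 : Tendsto (fun s : Fin (d + 1) → ℂ => (fun _ : Fin 1 => s 0))
      (𝓝 (cn (x₁ 0) (Fin.tail c₀))) (𝓝 x₁) := by
    have h1 : Continuous (fun s : Fin (d + 1) → ℂ => (fun _ : Fin 1 => s 0)) :=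
      continuous_pi fun _ => continuous_apply 0
    have h2 := h1.tendsto (cn (x₁ 0) (Fin.tail c₀))
    have h3 : (fun _ : Fin 1 => (cn (x₁ 0) (Fin.tail c₀)) 0) = x₁ := by
      funext k
      rw [cn_zero, Subsingleton.elim k 0]
    rwa [h3] at h2
  have hc2 : Tendsto (fun s : Fin (d + 1) → ℂ => Fin.tail s)
      (𝓝 (cn (x₁ 0) (Fin.tail c₀))) (𝓝 (Fin.tail c₀)) := by
    have h1 : Continuous (fun s : Fin (d + 1) → ℂ => Fin.tail s) :=
      continuous_pi fun k => continuous_apply k.succ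
    exact h1.tendsto (cn (x₁ 0) (Fin.tail c₀))
  have h1 : w =ᶠ[𝓝 (cn (x₁ 0) (Fin.tail c₀))] fun _ => 0 := by
    filter_upwards [hc1.eventually hV, hc1.eventually (Metric.isOpen_ball.mem_nhds hx₁),
      hc2.eventually (Metric.ball_mem_nhds _ hr)] with s h1 h2 h3
    have h4 := hz _ h1 h2 _ h3
    rwa [cn_tail] at h4
  exact hw.eqOn_of_preconnected_of_eventuallyEq analyticOnNhd_const
    (convex_ball _ _).isPreconnected hmem h1 hs₀

/-- Baire -/
lemma dense_live {d : ℕ} {c₀ : Fin (d + 1) → ℂ} {r : ℝ} (hr : 0 < r) {ι : Type} [Countable ι]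
    {w : ι → (Fin (d + 1) → ℂ) → ℂ} (hw : ∀ a, AnalyticOnNhd ℂ (w a) (Metric.ball c₀ r)) :
    Metric.ball (fun _ => c₀ 0) r ⊆ closure {x | x ∈ Metric.ball (fun _ : Fin 1 => c₀ 0) r ∧
      ∀ a, (∃ s ∈ Metric.ball c₀ r, w a s ≠ 0) →
        ∃ s ∈ Metric.ball (Fin.tail c₀) r, w a (cn (x 0) s) ≠ 0} := by
  classical
  set B := Metric.ball (fun _ : Fin 1 => c₀ 0) r with hB
  set O : {a : ι // ∃ s ∈ Metric.ball c₀ r, w a s ≠ 0} → Set (Fin 1 → ℂ) := fun a =>
    live c₀ r (w a.1) ∪ (closure B)ᶜ with hO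
  have h1 : Dense (⋂ a, O a) := by
    refine dense_iInter_of_isOpen (fun a => (live_open hr (hw a.1)).union
      isClosed_closure.isOpen_compl) fun a => ?_
    rw [dense_iff_inter_open]
    rintro U hU ⟨x, hx⟩
    by_cases hxB : (U ∩ B).Nonempty
    · obtain ⟨z, hz, hzB⟩ := hxB
      obtain ⟨z', hz', hl⟩ := mem_closure_iff.1 (live_dense hr (hw a.1) a.2 hzB) U hU hz
      exact ⟨z', hz', Or.inl hl⟩
    · refine ⟨x, hx, Or.inr fun hxc => hxB ?_⟩
      exact mem_closure_iff.1 hxc U hU hx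
  intro x hx
  rw [mem_closure_iff]
  intro U hU hxU
  obtain ⟨z, ⟨hzU, hzB⟩, hz⟩ := h1.inter_open_nonempty (U ∩ B) (hU.inter Metric.isOpen_ball)
    ⟨x, hxU, hx⟩
  refine ⟨z, hzU, hzB, fun a ha => ?_⟩
  rcases mem_iInter.1 hz ⟨a, ha⟩ with h2 | h2
  · exact h2.2
  · exact absurd (subset_closure hzB) h2

/-- the differentials of functions which are coordinates near a point -/
lemma fderiv_coord {d : ℕ} {g : (Fin d → ℂ) → ℂ} {k : Fin d} {s₀ : Fin d → ℂ} {r : ℝ} (hr : 0 < r)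
    (h : ∀ s ∈ Metric.ball s₀ r, g s = s k) :
    fderiv ℂ g s₀ = ContinuousLinearMap.proj (R := ℂ) (φ := fun _ : Fin d => ℂ) k := by
  have h1 : g =ᶠ[𝓝 s₀] fun s => (ContinuousLinearMap.proj (R := ℂ) (φ := fun _ : Fin d => ℂ) k) s := by
    filter_upwards [Metric.ball_mem_nhds s₀ hr] with s hs
    exact h s hs
  rw [h1.fderiv_eq, ContinuousLinearMap.fderiv]

/-- bookkeeping -/
lemma finish {d n m m' : ℕ} {D : Set (Fin (d + 1) → ℂ)} {f : Fin n → (Fin (d + 1) → ℂ) → ℂ}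
    {κ : Fin m → Fin n} {κ' : Fin m' → Fin n} (hκ : Function.Injective κ)
    (hκ' : Function.Injective κ') (hdis : ∀ a b, κ a ≠ κ' b) (hm : m + m' = n)
    {I J : Finset (Fin m)} {I' J' : Finset (Fin m')}
    (hcard : (I.card + J.card) + (I'.card + J'.card) = (m + m') + (1 + d))
    (h : ∀ P : MvPolynomial ((I' ⊕ J') ⊕ (I ⊕ J)) ℂ, P ≠ 0 →
        ∃ t ∈ D, (∀ j ∈ J, ∀ k : ℕ, f (κ j) t ≠ -k) ∧ (∀ j ∈ J', ∀ k : ℕ, f (κ' j) t ≠ -k) ∧
          MvPolynomial.eval (Sum.elim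
            (Sum.elim (fun i : I' => f (κ' i) t) fun j : J' => Complex.Gamma (f (κ' j) t))
            (Sum.elim (fun i : I => f (κ i) t) fun j : J => Complex.Gamma (f (κ j) t))) P ≠ 0) :
    Full D f := by
  classical
  have hdisj : ∀ (A : Finset (Fin m)) (A' : Finset (Fin m')),
      Disjoint (A.image κ) (A'.image κ') := by
    intro A A'
    rw [Finset.disjoint_left]
    intro i hi hi'
    obtain ⟨a, -, rfl⟩ := Finset.mem_image.1 hi
    obtain ⟨b, -, hb⟩ := Finset.mem_image.1 hi'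
    exact hdis a b hb.symm
  have hcd : ∀ (A : Finset (Fin m)) (A' : Finset (Fin m')),
      (A.image κ ∪ A'.image κ').card = A.card + A'.card := by
    intro A A'
    rw [Finset.card_union_of_disjoint (hdisj A A'), Finset.card_image_of_injective _ hκ,
      Finset.card_image_of_injective _ hκ']
  have hsel : ∀ (A : Finset (Fin m)) (A' : Finset (Fin m')) (i : ↥(A.image κ ∪ A'.image κ')),
      ∃ b : ↥A' ⊕ ↥A, Sum.elim (fun a : ↥A' => κ' a) (fun a : ↥A => κ a) b = i := by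
    intro A A' i
    rcases Finset.mem_union.1 i.2 with h1 | h1
    · obtain ⟨a, ha, hai⟩ := Finset.mem_image.1 h1
      exact ⟨Sum.inr ⟨a, ha⟩, hai⟩
    · obtain ⟨a, ha, hai⟩ := Finset.mem_image.1 h1
      exact ⟨Sum.inl ⟨a, ha⟩, hai⟩
  choose β hβ using hsel
  refine ⟨I.image κ ∪ I'.image κ', J.image κ ∪ J'.image κ', ?_, fun P hP => ?_⟩
  · rw [hcd, hcd]
    omega
  set ρ : ↥(I.image κ ∪ I'.image κ') ⊕ ↥(J.image κ ∪ J'.image κ') →
      (↥I' ⊕ ↥J') ⊕ (↥I ⊕ ↥J) :=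
    Sum.elim (fun i => Sum.elim (fun a => Sum.inl (Sum.inl a)) (fun a => Sum.inr (Sum.inl a))
        (β I I' i))
      (fun j => Sum.elim (fun a => Sum.inl (Sum.inr a)) (fun a => Sum.inr (Sum.inr a))
        (β J J' j)) with hρ
  have hval : ∀ (t : Fin (d + 1) → ℂ),
      (Sum.elim
        (Sum.elim (fun i : I' => f (κ' i) t) fun j : J' => Complex.Gamma (f (κ' j) t))
        (Sum.elim (fun i : I => f (κ i) t) fun j : J => Complex.Gamma (f (κ j) t))) ∘ ρ =
      Sum.elim (fun i : ↥(I.image κ ∪ I'.image κ') => f i t)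
        fun j : ↥(J.image κ ∪ J'.image κ') => Complex.Gamma (f j t) := by
    intro t
    funext x
    rcases x with i | j
    · have h1 := hβ I I' i
      simp only [hρ, Function.comp_apply, Sum.elim_inl]
      rcases h2 : β I I' i with a | a
      · rw [h2] at h1
        simp only [Sum.elim_inl] at h1 ⊢
        rw [h1]
      · rw [h2] at h1
        simp only [Sum.elim_inr, Sum.elim_inl] at h1 ⊢
        rw [h1]
    · have h1 := hβ J J' j
      simp only [hρ, Function.comp_apply, Sum.elim_inr]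
      rcases h2 : β J J' j with a | a
      · rw [h2] at h1
        simp only [Sum.elim_inl, Sum.elim_inr] at h1 ⊢
        rw [h1]
      · rw [h2] at h1
        simp only [Sum.elim_inr] at h1 ⊢
        rw [h1]
  have hρi : Function.Injective ρ := by
    have hβi : ∀ (A : Finset (Fin m)) (A' : Finset (Fin m')), Function.Injective (β A A') := by
      intro A A' i j hij
      apply Subtype.ext
      rw [← hβ A A' i, ← hβ A A' j, hij]
    rintro (i | i) (j | j) hij
    · rw [Sum.inl.injEq]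
      apply hβi I I'
      simp only [hρ, Sum.elim_inl] at hij
      rcases h1 : β I I' i with a | a <;> rcases h2 : β I I' j with b | b <;>
        simp only [h1, h2, Sum.elim_inl, Sum.elim_inr, Sum.inl.injEq, Sum.inr.injEq,
          reduceCtorEq] at hij ⊢ <;> exact hij
    · simp only [hρ, Sum.elim_inl, Sum.elim_inr] at hij
      rcases h1 : β I I' i with a | a <;> rcases h2 : β J J' j with b | b <;>
        simp only [h1, h2, Sum.elim_inl, Sum.elim_inr, Sum.inl.injEq, Sum.inr.injEq,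
          reduceCtorEq] at hij
    · simp only [hρ, Sum.elim_inl, Sum.elim_inr] at hij
      rcases h1 : β J J' i with a | a <;> rcases h2 : β I I' j with b | b <;>
        simp only [h1, h2, Sum.elim_inl, Sum.elim_inr, Sum.inl.injEq, Sum.inr.injEq,
          reduceCtorEq] at hij
    · rw [Sum.inr.injEq]
      apply hβi J J'
      simp only [hρ, Sum.elim_inr] at hij
      rcases h1 : β J J' i with a | a <;> rcases h2 : β J J' j with b | b <;>
        simp only [h1, h2, Sum.elim_inl, Sum.elim_inr, Sum.inl.injEq, Sum.inr.injEq,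
          reduceCtorEq] at hij ⊢ <;> exact hij
  obtain ⟨t, ht, hp, hp', hne⟩ := h (MvPolynomial.rename ρ P) (by
    intro h0
    apply hP
    apply MvPolynomial.rename_injective ρ hρi
    rw [h0, map_zero])
  refine ⟨t, ht, ?_, ?_⟩
  · intro j hj k
    rcases Finset.mem_union.1 hj with h1 | h1
    · obtain ⟨a, ha, rfl⟩ := Finset.mem_image.1 h1
      exact hp a ha k
    · obtain ⟨a, ha, rfl⟩ := Finset.mem_image.1 h1
      exact hp' a ha k
  · rw [MvPolynomial.eval_rename, hval] at hne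
    exact hne

/-- the induction step -/
theorem step {c d : ℕ}
    (hB : ∀ m ≤ c + 1, ∀ (D : Set (Fin 1 → ℂ)) (f : Fin m → (Fin 1 → ℂ) → ℂ),
      Germ D f → Full D f)
    (hS : ∀ m ≤ d + c, ∀ (D : Set (Fin d → ℂ)) (f : Fin m → (Fin d → ℂ) → ℂ),
      Germ D f → Full D f)
    {n : ℕ} (hn : n ≤ d + 1 + c) {D : Set (Fin (d + 1) → ℂ)}
    {f : Fin n → (Fin (d + 1) → ℂ) → ℂ} (hG : Germ D f) : Full D f := by
  classical
  obtain ⟨hD, hp, hf, hc, hH, t₀, ht₀, e, hli⟩ := hG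
  have he : Function.Injective e := inj_of_li hli
  set F : (Fin (d + 1) → ℂ) → (Fin (d + 1) → ℂ) := fun t k => f (e k) t with hF
  have hFa : AnalyticAt ℂ F t₀ := analyticAt_pi_iff.2 fun k => hf (e k) t₀ ht₀
  obtain ⟨φ, Ω, hΩ, -, hΩ0, hφa, hφ, hφl⟩ := exists_inverse hD ht₀ hFa (by
    intro v hv
    refine ker_of_li hli fun k => ?_
    have h1 : fderiv ℂ F t₀ v k = 0 := by rw [hv]; rfl
    have h2 : HasFDerivAt (fun t => f (e k) t)
        ((ContinuousLinearMap.proj (R := ℂ) (φ := fun _ : Fin (d + 1) => ℂ) k).comp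
          (fderiv ℂ F t₀)) t₀ :=
      (hasFDerivAt_pi'.1 hFa.differentiableAt.hasFDerivAt) k
    have h3 : fderiv ℂ (f (e k)) t₀ =
        (ContinuousLinearMap.proj (R := ℂ) (φ := fun _ : Fin (d + 1) => ℂ) k).comp
          (fderiv ℂ F t₀) := h2.fderiv
    rw [h3]
    exact h1)
  set c₀ : Fin (d + 1) → ℂ := F t₀ with hc₀
  obtain ⟨r, hr, hrΩ⟩ := Metric.isOpen_iff.1 hΩ _ hΩ0
  have hFt : Tendsto F (𝓝 t₀) (𝓝 c₀) := hFa.continuousAt
  have hback : ∀ᶠ t in 𝓝 t₀, F t ∈ Metric.ball c₀ r ∧ φ (F t) = t :=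
    (hFt.eventually (Metric.ball_mem_nhds _ hr)).and hφl
  set y : Fin n → (Fin (d + 1) → ℂ) → ℂ := fun i s => f i (φ s) with hy
  have hya : ∀ i, AnalyticOnNhd ℂ (y i) (Metric.ball c₀ r) := fun i s hs =>
    (hf i (φ s) (hφ s (hrΩ hs)).1).comp (hφa s (hrΩ hs))
  have hye : ∀ k, ∀ s ∈ Metric.ball c₀ r, y (e k) s = s k := fun k s hs =>
    congrFun (hφ s (hrΩ hs)).2 k
  -- constants and relations
  have hyc : ∀ i, ∀ v : ℂ, ¬ ∀ s ∈ Metric.ball c₀ r, y i s = v := by
    intro i v hv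
    refine hc i v ?_
    have h1 : f i =ᶠ[𝓝 t₀] fun _ => v := by
      filter_upwards [hback] with t ht
      have := hv (F t) ht.1
      simp only [hy, ht.2] at this
      exact this
    exact fun t ht => (hf i).eqOn_of_preconnected_of_eventuallyEq analyticOnNhd_const hp ht₀ h1 ht
  have hyH : ∀ i j, i ≠ j → ∀ p q : ℚ, ¬ ∀ s ∈ Metric.ball c₀ r, y i s = p * y j s + q := by
    intro i j hij p q hv
    refine hH i j hij p q ?_
    have h1 : f i =ᶠ[𝓝 t₀] fun t => (p : ℂ) * f j t + q := by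
      filter_upwards [hback] with t ht
      have := hv (F t) ht.1
      simp only [hy, ht.2] at this
      exact this
    exact fun t ht => (hf i).eqOn_of_preconnected_of_eventuallyEq
      ((analyticOnNhd_const.mul (hf j)).add analyticOnNhd_const) hp ht₀ h1 ht
  -- the functions of the first coordinate
  set c' : Fin d → ℂ := Fin.tail c₀ with hc'
  set Db : Set (Fin 1 → ℂ) := Metric.ball (fun _ => c₀ 0) r with hDb
  set Ds : Set (Fin d → ℂ) := Metric.ball c' r with hDs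
  have hc's : c' ∈ Ds := Metric.mem_ball_self hr
  have hmem : ∀ x ∈ Db, ∀ s ∈ Ds, cn (x 0) s ∈ Metric.ball c₀ r := fun x hx s hs =>
    (mem_cn hr).2 ⟨(mem_one hr).1 hx, hs⟩
  have hsplit : ∀ s ∈ Metric.ball c₀ r, (fun _ : Fin 1 => s 0) ∈ Db ∧ Fin.tail s ∈ Ds := by
    intro s hs
    rw [← cn_tail s] at hs
    have h1 := (mem_cn hr).1 hs
    exact ⟨(mem_one hr).2 h1.1, h1.2⟩
  set C : Finset (Fin n) := Finset.univ.filter fun i =>
    ∀ s ∈ Metric.ball c₀ r, y i s = y i (cn (s 0) c') with hC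
  have hCmem : ∀ i, i ∈ C ↔ ∀ s ∈ Metric.ball c₀ r, y i s = y i (cn (s 0) c') := by
    intro i
    simp [hC]
  obtain ⟨κ, hκ, hκC⟩ := enum C
  obtain ⟨κ', hκ', hκC'⟩ := enum Cᶜ
  have he0 : e 0 ∈ C := by
    rw [hCmem]
    intro s hs
    rw [hye 0 s hs, hye 0 (cn (s 0) c') (by
      have h1 := hsplit s hs
      exact (mem_cn hr).2 ⟨(mem_one hr).1 h1.1, hc's⟩), cn_zero]
  have hes : ∀ k : Fin d, e k.succ ∉ C := by
    intro k hk
    rw [hCmem] at hk
    obtain ⟨z, hz, hzne⟩ : ∃ z : ℂ, dist z (c' k) < r ∧ z ≠ c' k := by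
      refine ⟨c' k + (r / 2 : ℝ), ?_, ?_⟩
      · rw [dist_eq_norm, add_sub_cancel_left, Complex.norm_real, Real.norm_eq_abs,
          abs_of_pos (by linarith)]
        linarith
      · intro h0
        have h1 : ((r / 2 : ℝ) : ℂ) = 0 := by
          have := congrArg (fun w => w - c' k) h0
          simpa using this
        rw [Complex.ofReal_eq_zero] at h1
        linarith
    have hs : Function.update c' k z ∈ Ds := by
      rw [hDs, Metric.mem_ball, dist_pi_lt_iff hr]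
      intro l
      by_cases hl : l = k
      · subst hl
        rw [Function.update_self]
        exact hz
      · rw [Function.update_of_ne hl, dist_self]
        exact hr
    have hx : (fun _ : Fin 1 => c₀ 0) ∈ Db := Metric.mem_ball_self hr
    have h1 := hk (cn (c₀ 0) (Function.update c' k z)) (hmem _ hx _ hs)
    rw [hye _ _ (hmem _ hx _ hs), cn_zero, hye _ _ (hmem _ hx _ hc's), cn_succ, cn_succ,
      Function.update_self] at h1
    exact hzne h1
  have hcard : C.card + Cᶜ.card = n := by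
    rw [Finset.card_add_card_compl]
    simp
  have hC1 : 1 ≤ C.card := Finset.card_pos.2 ⟨_, he0⟩
  have hCd : d ≤ Cᶜ.card := by
    have h1 : (Finset.univ.image fun k : Fin d => e k.succ) ⊆ Cᶜ := by
      intro i hi
      obtain ⟨k, -, rfl⟩ := Finset.mem_image.1 hi
      exact Finset.mem_compl.2 (hes k)
    have h2 := Finset.card_le_card h1
    rw [Finset.card_image_of_injective _ (fun k l hkl => Fin.succ_injective _ (he hkl))] at h2
    simpa using h2
  -- the base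
  have hbase : Full Db (fun a : Fin C.card => fun x : Fin 1 → ℂ => y (κ a) (cn (x 0) c')) := by
    refine hB _ (by omega) _ _ ⟨Metric.isOpen_ball, (convex_ball _ _).isPreconnected, ?_, ?_, ?_,
      ?_⟩
    · intro a x hx
      exact AnalyticAt.comp (g := y (κ a)) (f := fun x : Fin 1 → ℂ => cn (x 0) c')
        (hya _ _ (hmem x hx _ hc's)) (an1 c' x)
    · intro a v hv
      refine hyc (κ a) v fun s hs => ?_
      rw [(hCmem _).1 ((hκC _).2 ⟨a, rfl⟩) s hs]
      exact hv _ (hsplit s hs).1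
    · intro a b hab p q hv
      refine hyH (κ a) (κ b) (fun h0 => hab (hκ h0)) p q fun s hs => ?_
      rw [(hCmem _).1 ((hκC _).2 ⟨a, rfl⟩) s hs, (hCmem _).1 ((hκC _).2 ⟨b, rfl⟩) s hs]
      exact hv _ (hsplit s hs).1
    · obtain ⟨a₀, ha₀⟩ := (hκC _).1 he0
      refine ⟨fun _ => c₀ 0, Metric.mem_ball_self hr, fun _ => a₀, ?_⟩
      rw [linearIndependent_unique_iff]
      have h1 : fderiv ℂ (fun x : Fin 1 → ℂ => y (κ a₀) (cn (x 0) c')) (fun _ => c₀ 0) =
          ContinuousLinearMap.proj (R := ℂ) (φ := fun _ : Fin 1 => ℂ) 0 := by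
        refine fderiv_coord hr fun x hx => ?_
        rw [ha₀, hye 0 _ (hmem x hx _ hc's), cn_zero]
      rw [h1]
      intro h0
      have h2 := congrArg (fun L : (Fin 1 → ℂ) →L[ℂ] ℂ => L (fun _ => 1)) h0
      simp at h2
  -- the slices
  have hslices : Db ⊆ closure {x | x ∈ Db ∧
      Full Ds (fun b : Fin Cᶜ.card => fun s : Fin d → ℂ => y (κ' b) (cn (x 0) s))} := by
    set w : (Fin n ⊕ (Fin n × Fin n × ℚ × ℚ)) → (Fin (d + 1) → ℂ) → ℂ := fun a s =>
      Sum.elim (fun i => y i s - y i (cn (s 0) c'))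
        (fun q => y q.1 s - (q.2.2.1 * y q.2.1 s + q.2.2.2)) a with hw
    have hwa : ∀ a, AnalyticOnNhd ℂ (w a) (Metric.ball c₀ r) := by
      rintro (i | q) s hs
      · refine (hya i s hs).sub ?_
        exact AnalyticAt.comp (g := y i) (f := fun s : Fin (d + 1) → ℂ => cn (s 0) c')
          (hya _ _ (hmem _ (hsplit s hs).1 _ hc's)) (an3 c' s)
      · exact (hya q.1 s hs).sub ((analyticAt_const.mul (hya q.2.1 s hs)).add analyticAt_const)
    refine (dense_live hr hwa).trans (closure_mono ?_)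
    rintro x ⟨hx, hlive⟩
    refine ⟨hx, hS _ (by omega) _ _ ⟨Metric.isOpen_ball, (convex_ball _ _).isPreconnected, ?_, ?_,
      ?_, ?_⟩⟩
    · intro b s hs
      exact AnalyticAt.comp (g := y (κ' b)) (f := fun s : Fin d → ℂ => cn (x 0) s)
        (hya _ _ (hmem x hx s hs)) (an2 (x 0) s)
    · intro b v hv
      have hb : κ' b ∉ C := Finset.mem_compl.1 ((hκC' _).2 ⟨b, rfl⟩)
      rw [hCmem] at hb
      push Not at hb
      obtain ⟨s₁, hs₁, hne₁⟩ := hb
      obtain ⟨s, hs, hne⟩ := hlive (Sum.inl (κ' b)) ⟨s₁, hs₁, sub_ne_zero.2 hne₁⟩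
      apply hne
      have h1 : y (κ' b) (cn (x 0) s) = v := hv s hs
      have h2 : y (κ' b) (cn (x 0) c') = v := hv c' hc's
      simp only [hw, Sum.elim_inl]
      rw [cn_zero, h1, h2, sub_self]
    · intro a b hab p q hv
      have h1 := hyH (κ' a) (κ' b) (fun h0 => hab (hκ' h0)) p q
      push Not at h1
      obtain ⟨s₁, hs₁, hne₁⟩ := h1
      obtain ⟨s, hs, hne⟩ := hlive (Sum.inr (κ' a, κ' b, p, q)) ⟨s₁, hs₁, sub_ne_zero.2 hne₁⟩
      apply hne
      have h1 : y (κ' a) (cn (x 0) s) = p * y (κ' b) (cn (x 0) s) + q := hv s hs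
      simp only [hw, Sum.elim_inr]
      rw [h1, sub_self]
    · have h1 : ∀ k : Fin d, ∃ b, κ' b = e k.succ := fun k =>
        (hκC' _).1 (Finset.mem_compl.2 (hes k))
      choose b hb using h1
      refine ⟨c', hc's, b, ?_⟩
      have h2 : (fun k => fderiv ℂ (fun s : Fin d → ℂ => y (κ' (b k)) (cn (x 0) s)) c') =
          fun k : Fin d => (ContinuousLinearMap.proj (R := ℂ) (φ := fun _ : Fin d => ℂ) k) := by
        funext k
        refine fderiv_coord hr fun s hs => ?_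
        rw [hb, hye _ _ (hmem x hx s hs), cn_succ]
      rw [h2]
      exact li_proj d
  -- towers
  obtain ⟨I, J, I', J', hcd, hT⟩ := towers (D := Db)
    (f := fun a : Fin C.card => fun x : Fin 1 → ℂ => y (κ a) (cn (x 0) c')) Metric.isOpen_ball
    (fun a x hx => AnalyticAt.comp (g := y (κ a)) (f := fun x : Fin 1 → ℂ => cn (x 0) c')
        (hya _ _ (hmem x hx _ hc's)) (an1 c' x)) hbase (D' := fun _ => Ds)
    (g := fun x => fun b : Fin Cᶜ.card => fun s : Fin d → ℂ => y (κ' b) (cn (x 0) s)) hslices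
  refine finish hκ hκ' (fun a b hab => ?_) hcard hcd fun P hP => ?_
  · have h1 : κ a ∈ C := (hκC _).2 ⟨a, rfl⟩
    have h2 : κ' b ∈ Cᶜ := (hκC' _).2 ⟨b, rfl⟩
    rw [hab] at h1
    exact Finset.mem_compl.1 h2 h1
  · obtain ⟨x, hx, s, hs, hp1, hp2, hne⟩ := hT P hP
    have hxs := hmem x hx s hs
    have hval : ∀ a : Fin C.card, y (κ a) (cn (x 0) c') = f (κ a) (φ (cn (x 0) s)) := by
      intro a
      have h1 := (hCmem _).1 ((hκC _).2 ⟨a, rfl⟩) _ hxs
      rw [cn_zero] at h1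
      rw [← h1]
    simp only [hval] at hp1 hne
    exact ⟨φ (cn (x 0) s), (hφ _ (hrΩ hxs)).1, hp1, hp2, hne⟩

/-- **Codimension `c`.** The inequality for curves in dimension at most `c + 1` gives it for all germs in codimension
at most `c`. -/
theorem codim {c : ℕ}
    (hB : ∀ m ≤ c + 1, ∀ (D : Set (Fin 1 → ℂ)) (f : Fin m → (Fin 1 → ℂ) → ℂ),
      Germ D f → Full D f) :
    ∀ d : ℕ, ∀ n ≤ (d + 1) + c, ∀ (D : Set (Fin (d + 1) → ℂ)) (f : Fin n → (Fin (d + 1) → ℂ) → ℂ),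
      Germ D f → Full D f := by
  intro d
  induction d with
  | zero =>
    intro n hn D f hG
    exact hB n (by omega) D f hG
  | succ d ih =>
    intro n hn D f hG
    exact step hB (fun m hm D f hG => ih m hm D f hG) hn hG

end Pool.Agent.J4H74.AS.Slice
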