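import Pool.Agent.J4H74.AS.Alg
import Pool.Agent.J4H69.AX.Gam

set_option autoImplicit false

/-!
The dense case, hypersurface germs, families.
-/

namespace Pool.Agent.J4H74.AS

open Filter Topology Set

theorem high_case {d n : ℕ} {D : Set (Fin d → ℂ)} {f : Fin n → (Fin d → ℂ) → ℂ}
    (hG : Germ D f) (hT : High D f) : Full D f := by
  classical
  obtain ⟨hD, hp, hf, hc, hH, t₀, ht₀, e, hli⟩ := hG
  obtain ⟨J, hJ, hI⟩ := Pool.Agent.J4H69.AX.functional hD hp hf
    (g := fun (_ : Fin n) w => (Complex.Gamma w)⁻¹) (fun _ => Pool.Agent.J4H69.AX.gam_dvb) ht₀ hli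
  refine ⟨Finset.univ, J, by simp [hJ], fun P hP => ?_⟩
  set ρ : ↥(Finset.univ : Finset (Fin n)) ⊕ ↥J → ↥J ⊕ Fin n :=
    Sum.elim (fun i => Sum.inr i.1) (fun j => Sum.inl j) with hρ
  have hρi : Function.Injective ρ := by
    rintro (i | i) (j | j) h
    · simp only [hρ, Sum.elim_inl, Sum.inr.injEq] at h
      rw [Subtype.ext h]
    · simp [hρ] at h
    · simp [hρ] at h
    · simp only [hρ, Sum.elim_inr, Sum.inl.injEq] at h
      rw [h]
  set P' : MvPolynomial ↥J (MvPolynomial (Fin n) ℂ) :=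
    MvPolynomial.sumAlgEquiv ℂ ↥J (Fin n) (MvPolynomial.rename ρ P) with hP'
  have hP'0 : P' ≠ 0 := by
    rw [hP', Ne, EmbeddingLike.map_eq_zero_iff]
    intro h0
    apply hP
    apply MvPolynomial.rename_injective ρ hρi
    rw [h0, map_zero]
  obtain ⟨m, hm⟩ := MvPolynomial.ne_zero_iff.1 hP'0
  obtain ⟨t, ht, hne⟩ := hT _ hm
  obtain ⟨t₁, ht₁, hpole, hne₁⟩ := Pool.Agent.J4H69.AX.ind_gam hI P' ⟨t, ht, by
    intro h0
    apply hne
    rw [← MvPolynomial.coeff_map, h0, MvPolynomial.coeff_zero]⟩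
  refine ⟨t₁, ht₁, hpole, ?_⟩
  rw [hP', eval_sum, MvPolynomial.eval_rename] at hne₁
  have h1 : (Sum.elim (fun j : ↥J => Complex.Gamma (f j t₁)) (fun i => f i t₁) ∘ ρ) =
      Sum.elim (fun i : ↥(Finset.univ : Finset (Fin n)) => f i t₁)
        fun j : ↥J => Complex.Gamma (f j t₁) := by
    funext x
    rcases x with i | j
    · simp only [hρ, Function.comp_apply, Sum.elim_inl, Sum.elim_inr]
    · simp only [hρ, Function.comp_apply, Sum.elim_inl, Sum.elim_inr]
  rw [h1] at hne₁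
  exact hne₁

/-- a non injective choice of functions -/
lemma dep_of_not_injective {d n : ℕ} {D : Set (Fin d → ℂ)} {f : Fin n → (Fin d → ℂ) → ℂ}
    {c : Fin (d + 1) → Fin n} (h : ¬ Function.Injective c) :
    ∃ P : MvPolynomial (Fin (d + 1)) ℂ, P ≠ 0 ∧
      ∀ t ∈ D, MvPolynomial.eval (fun k => f (c k) t) P = 0 := by
  rw [Function.not_injective_iff] at h
  obtain ⟨a, b, hab, hne⟩ := h
  refine ⟨MvPolynomial.X a - MvPolynomial.X b, ?_, fun t _ => ?_⟩
  · rw [sub_ne_zero]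
    intro h0
    exact hne (MvPolynomial.X_injective h0)
  · simp [hab]

/-- germs of dimension at least `n - 1` -/
lemma low_or_high {d n : ℕ} {D : Set (Fin d → ℂ)} {f : Fin n → (Fin d → ℂ) → ℂ}
    (hn : n ≤ d + 1) : Low D f ∨ High D f := by
  by_cases hh : High D f
  · exact Or.inr hh
  left
  rw [High] at hh
  push Not at hh
  obtain ⟨P, hP, hP0⟩ := hh
  intro c
  by_cases hc : Function.Injective c
  · have hcard : n = d + 1 := by
      have h1 := Fintype.card_le_of_injective c hc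
      simp at h1
      omega
    subst hcard
    have hb : Function.Bijective c := Finite.injective_iff_bijective.1 hc
    set E := Equiv.ofBijective c hb with hE
    refine ⟨MvPolynomial.rename E.symm P, ?_, fun t ht => ?_⟩
    · intro h0
      apply hP
      apply MvPolynomial.rename_injective _ E.symm.injective
      rw [h0, map_zero]
    · rw [MvPolynomial.eval_rename, ← hP0 t ht]
      congr 2
      funext i
      simp only [Function.comp_apply]
      congr 1
      exact E.apply_symm_apply i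
  · exact dep_of_not_injective hc

theorem full (AXL : AxL) {d n : ℕ} {D : Set (Fin d → ℂ)} {f : Fin n → (Fin d → ℂ) → ℂ}
    (hG : Germ D f) (h : n ≤ d + 1 ∨ Low D f ∨ High D f) : Full D f := by
  have h' : Low D f ∨ High D f := by
    rcases h with h | h
    · exact low_or_high h
    · exact h
  rcases h' with h' | h'
  · exact alg_case AXL hG h'
  · exact high_case hG h'

/-- families -/
theorem families (AXL : AxL) {X σ : Type} [TopologicalSpace X] {d n : ℕ} {h : σ → X → ℂ}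
    (hc : ∀ i, Continuous (h i))
    (hi : ∀ P : MvPolynomial σ ℂ, P ≠ 0 → ∃ x, MvPolynomial.eval (fun i => h i x) P ≠ 0)
    {D : X → Set (Fin d → ℂ)} {f : X → Fin n → (Fin d → ℂ) → ℂ}
    (hd : Dense {x | Germ (D x) (f x) ∧ (n ≤ d + 1 ∨ Low (D x) (f x) ∨ High (D x) (f x))}) :
    ∃ I J : Finset (Fin n), I.card + J.card = n + d ∧
      ∀ P : MvPolynomial (I ⊕ J) (MvPolynomial σ ℂ), P ≠ 0 →
        ∃ x, ∃ t ∈ D x, (∀ j ∈ J, ∀ k : ℕ, f x j t ≠ -k) ∧
          MvPolynomial.eval (Sum.elim (fun i : I => f x i t) fun j : J => Complex.Gamma (f x j t))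
            (P.map (MvPolynomial.eval fun i => h i x)) ≠ 0 := by
  classical
  by_contra hcon
  push Not at hcon
  have hcon' : ∀ q : Finset (Fin n) × Finset (Fin n),
      ∃ P : MvPolynomial (q.1 ⊕ q.2) (MvPolynomial σ ℂ), P ≠ 0 ∧
        (q.1.card + q.2.card = n + d → ∀ x, ∀ t ∈ D x, (∀ j ∈ q.2, ∀ k : ℕ, f x j t ≠ -k) →
          MvPolynomial.eval (Sum.elim (fun i : q.1 => f x i t)
            fun j : q.2 => Complex.Gamma (f x j t))
            (P.map (MvPolynomial.eval fun i => h i x)) = 0) := by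
    intro q
    by_cases hq : q.1.card + q.2.card = n + d
    · obtain ⟨P, hP, hP0⟩ := hcon q.1 q.2 hq
      exact ⟨P, hP, fun _ => hP0⟩
    · exact ⟨1, one_ne_zero, fun h0 => absurd h0 hq⟩
  choose P hP hP0 using hcon'
  choose m hm using fun q => MvPolynomial.ne_zero_iff.1 (hP q)
  obtain ⟨x₀, hx₀⟩ := hi (∏ q, (P q).coeff (m q)) (Finset.prod_ne_zero_iff.2 fun q _ => hm q)
  have hcont : Continuous fun x => MvPolynomial.eval (fun i => h i x) (∏ q, (P q).coeff (m q)) := by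
    have h1 : Continuous fun x => (fun i => h i x) := continuous_pi hc
    exact (MvPolynomial.continuous_eval _).comp h1
  have hopen : IsOpen {x | MvPolynomial.eval (fun i => h i x) (∏ q, (P q).coeff (m q)) ≠ 0} :=
    isOpen_ne_fun hcont continuous_const
  obtain ⟨x, hx, hgood⟩ := hd.inter_open_nonempty _ hopen ⟨x₀, hx₀⟩
  obtain ⟨I, J, hIJ, hF⟩ := full AXL hgood.1 hgood.2
  have hne : MvPolynomial.eval (fun i => h i x) ((P (I, J)).coeff (m (I, J))) ≠ 0 := by
    intro h0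
    apply hx
    rw [map_prod]
    exact Finset.prod_eq_zero (Finset.mem_univ (I, J)) h0
  obtain ⟨t, ht, hpole, hne2⟩ := hF ((P (I, J)).map (MvPolynomial.eval fun i => h i x)) (by
    intro h0
    apply hne
    rw [← MvPolynomial.coeff_map, h0, MvPolynomial.coeff_zero])
  exact hne2 (hP0 (I, J) hIJ x t ht hpole)

/-- towers -/
theorem towers (AXL : AxL) {d n d' n' : ℕ} {D : Set (Fin d → ℂ)} {f : Fin n → (Fin d → ℂ) → ℂ}
    (hG : Germ D f) (h : n ≤ d + 1 ∨ Low D f ∨ High D f)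
    {D' : (Fin d → ℂ) → Set (Fin d' → ℂ)} {g : (Fin d → ℂ) → Fin n' → (Fin d' → ℂ) → ℂ}
    (hd : D ⊆ closure {x | x ∈ D ∧ Germ (D' x) (g x) ∧
      (n' ≤ d' + 1 ∨ Low (D' x) (g x) ∨ High (D' x) (g x))}) :
    ∃ (I J : Finset (Fin n)) (I' J' : Finset (Fin n')),
      (I.card + J.card) + (I'.card + J'.card) = (n + n') + (d + d') ∧
      ∀ P : MvPolynomial ((I' ⊕ J') ⊕ (I ⊕ J)) ℂ, P ≠ 0 →
        ∃ x ∈ D, ∃ t ∈ D' x, (∀ j ∈ J, ∀ k : ℕ, f j x ≠ -k) ∧ (∀ j ∈ J', ∀ k : ℕ, g x j t ≠ -k) ∧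
          MvPolynomial.eval (Sum.elim
            (Sum.elim (fun i : I' => g x i t) fun j : J' => Complex.Gamma (g x j t))
            (Sum.elim (fun i : I => f i x) fun j : J => Complex.Gamma (f j x))) P ≠ 0 := by
  classical
  obtain ⟨I, J, hIJ, hF⟩ := full AXL hG h
  obtain ⟨hD, -, hf, -⟩ := hG
  have hgam : ∀ s : ℂ, (∀ k : ℕ, s ≠ -k) ↔ (Complex.Gamma s)⁻¹ ≠ 0 := by
    intro s
    rw [Ne, inv_eq_zero, Complex.Gamma_eq_zero_iff]
    push Not
    rfl
  set X₀ : Set (Fin d → ℂ) := {x | x ∈ D ∧ ∀ j ∈ J, ∀ k : ℕ, f j x ≠ -k} with hX₀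
  have hX₀o : IsOpen X₀ := by
    have h1 : X₀ = D ∩ (fun x => ∏ j ∈ J, (Complex.Gamma (f j x))⁻¹) ⁻¹' {0}ᶜ := by
      ext x
      simp only [hX₀, mem_setOf_eq, mem_inter_iff, mem_preimage, mem_compl_iff, mem_singleton_iff,
        Finset.prod_eq_zero_iff, hgam]
      push Not
      rfl
    rw [h1]
    refine ContinuousOn.isOpen_inter_preimage ?_ hD isOpen_compl_singleton
    refine continuousOn_finset_prod _ fun j _ => ?_
    exact Complex.differentiable_one_div_Gamma.continuous.comp_continuousOn (hf j).continuousOn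
  set hh : (I ⊕ J) → X₀ → ℂ := fun q x =>
    Sum.elim (fun i : I => f i x.1) (fun j : J => Complex.Gamma (f j x.1)) q with hhh
  have hcont : ∀ q, Continuous (hh q) := by
    intro q
    rw [continuous_iff_continuousAt]
    intro x
    rcases q with i | j
    · exact ((hf i x.1 x.2.1).continuousAt).comp continuous_subtype_val.continuousAt
    · have h1 : ContinuousAt Complex.Gamma (f j x.1) :=
        (Complex.differentiableAt_Gamma _ (x.2.2 j j.2)).continuousAt
      have h2 : ContinuousAt (f j) x.1 := (hf j x.1 x.2.1).continuousAt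
      exact (h1.comp (f := f j) h2).comp continuous_subtype_val.continuousAt
  obtain ⟨I', J', hIJ', hF'⟩ := families AXL (X := X₀) (σ := I ⊕ J) (h := hh) hcont
    (by
      intro P hP
      obtain ⟨t, ht, hpole, hne⟩ := hF P hP
      refine ⟨⟨t, ht, hpole⟩, ?_⟩
      have h1 : (fun i => hh i ⟨t, ht, hpole⟩) =
          Sum.elim (fun i : I => f i t) fun j : J => Complex.Gamma (f j t) := by
        funext q
        rfl
      rw [h1]
      exact hne)
    (D := fun x => D' x.1) (f := fun x => g x.1) (d := d') (n := n')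
    (by
      rw [dense_iff_inter_open]
      rintro U hU ⟨x, hx⟩
      obtain ⟨V, hV, rfl⟩ := isOpen_induced_iff.1 hU
      have h1 : x.1 ∈ closure {x | x ∈ D ∧ Germ (D' x) (g x) ∧
          (n' ≤ d' + 1 ∨ Low (D' x) (g x) ∨ High (D' x) (g x))} := hd x.2.1
      obtain ⟨z, ⟨hzV, hzX⟩, hz⟩ := mem_closure_iff.1 h1 (V ∩ X₀) (hV.inter hX₀o) ⟨hx, x.2⟩
      exact ⟨⟨z, hzX⟩, hzV, hz.2⟩)
  refine ⟨I, J, I', J', by omega, fun P hP => ?_⟩
  obtain ⟨x, t, ht, hpole, hne⟩ := hF' (MvPolynomial.sumAlgEquiv ℂ (I' ⊕ J') (I ⊕ J) P) (by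
    rw [Ne, EmbeddingLike.map_eq_zero_iff]
    exact hP)
  refine ⟨x.1, x.2.1, t, ht, x.2.2, hpole, ?_⟩
  rw [eval_sum] at hne
  exact hne

end Pool.Agent.J4H74.AS
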