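import Pool.Agent.J4H74.AS.Defs

set_option autoImplicit false

/-!
The algebraic case.
-/

namespace Pool.Agent.J4H74.AS

open Filter Topology Set

/-- evaluation of a polynomial in two sets of variables -/
lemma eval_sum {S T : Type} (Q : MvPolynomial (S ⊕ T) ℂ) (y : S → ℂ) (f : T → ℂ) :
    MvPolynomial.eval y ((MvPolynomial.sumAlgEquiv ℂ S T Q).map (MvPolynomial.eval f)) =
      MvPolynomial.eval (Sum.elim y f) Q := by
  induction Q using MvPolynomial.induction_on with
  | C a => simp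
  | add p q hp hq => rw [map_add, map_add, map_add, map_add, hp, hq]
  | mul_X p i hp =>
    rw [map_mul, map_mul, map_mul, map_mul, hp]
    congr 1
    rcases i with i | i
    · simp
    · simp

/-- the coordinates -/
lemma inj_of_li {d n : ℕ} {f : Fin n → (Fin d → ℂ) → ℂ} {t₀ : Fin d → ℂ} {e : Fin d → Fin n}
    (hli : LinearIndependent ℂ (fun k => fderiv ℂ (f (e k)) t₀)) :
    Function.Injective e := by
  intro k l hkl
  exact hli.injective (by simp only [hkl])

lemma ker_of_li {d : ℕ} {φ : Fin d → ((Fin d → ℂ) →L[ℂ] ℂ)} (hli : LinearIndependent ℂ φ)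
    {v : Fin d → ℂ} (hv : ∀ k, φ k v = 0) : v = 0 := by
  have hli' : LinearIndependent ℂ (fun k => (φ k : (Fin d → ℂ) →ₗ[ℂ] ℂ)) :=
    hli.map' (ContinuousLinearMap.coeLM ℂ) (LinearMap.ker_eq_bot.2
      ContinuousLinearMap.coe_injective)
  have hspan : Submodule.span ℂ (Set.range fun k => (φ k : (Fin d → ℂ) →ₗ[ℂ] ℂ)) = ⊤ := by
    refine hli'.span_eq_top_of_card_eq_finrank' ?_
    change _ = Module.finrank ℂ (Module.Dual ℂ (Fin d → ℂ))
    rw [Subspace.dual_finrank_eq]
    simp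
  have hall : ∀ ψ : (Fin d → ℂ) →ₗ[ℂ] ℂ, ψ v = 0 := by
    intro ψ
    have h1 : ψ ∈ Submodule.span ℂ (Set.range fun k => (φ k : (Fin d → ℂ) →ₗ[ℂ] ℂ)) := by
      rw [hspan]; trivial
    induction h1 using Submodule.span_induction with
    | mem x hx =>
      obtain ⟨k, rfl⟩ := hx
      exact hv k
    | zero => simp
    | add x y _ _ hx hy => rw [LinearMap.add_apply, hx, hy, add_zero]
    | smul a x _ hx => rw [LinearMap.smul_apply, hx, smul_zero]
  funext i
  exact hall (LinearMap.proj i)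

/-- local inverse -/
lemma exists_inverse {d : ℕ} {D : Set (Fin d → ℂ)} (hD : IsOpen D)
    {F : (Fin d → ℂ) → (Fin d → ℂ)} {t₀ : Fin d → ℂ} (ht₀ : t₀ ∈ D) (hF : AnalyticAt ℂ F t₀)
    (hk : ∀ v, fderiv ℂ F t₀ v = 0 → v = 0) :
    ∃ (φ : (Fin d → ℂ) → (Fin d → ℂ)) (Ω : Set (Fin d → ℂ)), IsOpen Ω ∧ IsPreconnected Ω ∧
      F t₀ ∈ Ω ∧ AnalyticOnNhd ℂ φ Ω ∧ (∀ s ∈ Ω, φ s ∈ D ∧ F (φ s) = s) ∧
      ∀ᶠ t in 𝓝 t₀, φ (F t) = t := by
  have hinj : Function.Injective (fderiv ℂ F t₀ : (Fin d → ℂ) →ₗ[ℂ] (Fin d → ℂ)) := by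
    rw [injective_iff_map_eq_zero]
    exact fun v hv => hk v hv
  set A : (Fin d → ℂ) ≃L[ℂ] (Fin d → ℂ) :=
    (LinearEquiv.ofInjectiveEndo _ hinj).toContinuousLinearEquiv with hA
  have hAc : (A : (Fin d → ℂ) →L[ℂ] (Fin d → ℂ)) = fderiv ℂ F t₀ := by
    ext v i
    simp [hA]
  have hs : HasStrictFDerivAt F (A : (Fin d → ℂ) →L[ℂ] (Fin d → ℂ)) t₀ := by
    rw [hAc]
    exact hF.hasStrictFDerivAt
  set φ := hs.localInverse F A t₀ with hφ
  have hφa : AnalyticAt ℂ φ (F t₀) := by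
    have h1 := (hs.toOpenPartialHomeomorph F).analyticAt_symm' (i := A)
      hs.mem_toOpenPartialHomeomorph_source hF hAc.symm
    exact h1
  have hφ0 : φ (F t₀) = t₀ := hs.localInverse_apply_image
  have hφt : Tendsto φ (𝓝 (F t₀)) (𝓝 t₀) := hs.localInverse_tendsto
  have hev : ∀ᶠ s in 𝓝 (F t₀), AnalyticAt ℂ φ s ∧ φ s ∈ D ∧ F (φ s) = s :=
    hφa.eventually_analyticAt.and ((hφt.eventually (hD.mem_nhds ht₀)).and
      hs.eventually_right_inverse)
  obtain ⟨r, hr, hball⟩ := Metric.eventually_nhds_iff_ball.1 hev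
  refine ⟨φ, Metric.ball (F t₀) r, Metric.isOpen_ball, (convex_ball _ _).isPreconnected,
    Metric.mem_ball_self hr, fun s hs' => (hball s hs').1, fun s hs' => (hball s hs').2,
    hs.eventually_left_inverse⟩

/-- The Ax–Lindemann theorem for the Gamma function (a starting result). -/
def AxL : Prop :=
  ∀ (d n : ℕ) (Ω : Set (Fin d → ℂ)) (y : Fin n → (Fin d → ℂ) → ℂ),
      IsOpen Ω → IsPreconnected Ω → Ω.Nonempty →
      (∀ i, AnalyticOnNhd ℂ (y i) Ω) →
      (∀ i, ∃ Q : Polynomial (MvPolynomial (Fin d) ℂ), Q ≠ 0 ∧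
        ∀ t ∈ Ω, (Q.map (MvPolynomial.eval t)).eval (y i t) = 0) →
      (∀ i, ∀ v : ℂ, ¬ ∀ t ∈ Ω, y i t = v) →
      (∀ i j, i ≠ j → ∀ p q : ℚ, ¬ ∀ t ∈ Ω, y i t = p * y j t + q) →
      ∀ P : MvPolynomial (Fin n) (MvPolynomial (Fin d) ℂ), P ≠ 0 →
      ∃ t ∈ Ω, (∀ i, ∀ m : ℕ, y i t ≠ -m) ∧
        MvPolynomial.eval (fun i => Complex.Gamma (y i t)) (P.map (MvPolynomial.eval t)) ≠ 0

theorem alg_case (AXL : AxL) {d n : ℕ} {D : Set (Fin d → ℂ)} {f : Fin n → (Fin d → ℂ) → ℂ}
    (hG : Germ D f) (hT : Low D f) : Full D f := by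
  classical
  obtain ⟨hD, hp, hf, hc, hH, t₀, ht₀, e, hli⟩ := hG
  have he : Function.Injective e := inj_of_li hli
  set F : (Fin d → ℂ) → (Fin d → ℂ) := fun t k => f (e k) t with hF
  have hFa : AnalyticAt ℂ F t₀ := analyticAt_pi_iff.2 fun k => hf (e k) t₀ ht₀
  obtain ⟨φ, Ω, hΩ, hΩp, hΩ0, hφa, hφ, hφl⟩ := exists_inverse hD ht₀ hFa (by
    intro v hv
    refine ker_of_li hli fun k => ?_
    have h1 : fderiv ℂ F t₀ v k = 0 := by rw [hv]; rfl
    have h2 : HasFDerivAt (fun t => f (e k) t)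
        ((ContinuousLinearMap.proj (R := ℂ) (φ := fun _ : Fin d => ℂ) k).comp
          (fderiv ℂ F t₀)) t₀ :=
      (hasFDerivAt_pi'.1 hFa.differentiableAt.hasFDerivAt) k
    have h3 : fderiv ℂ (f (e k)) t₀ =
        (ContinuousLinearMap.proj (R := ℂ) (φ := fun _ : Fin d => ℂ) k).comp
          (fderiv ℂ F t₀) := h2.fderiv
    rw [h3]
    exact h1)
  have hFt : Tendsto F (𝓝 t₀) (𝓝 (F t₀)) := hFa.continuousAt
  have hback : ∀ᶠ t in 𝓝 t₀, F t ∈ Ω ∧ φ (F t) = t :=
    (hFt.eventually (hΩ.mem_nhds hΩ0)).and hφl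
  set y : Fin n → (Fin d → ℂ) → ℂ := fun i s => f i (φ s) with hy
  have hya : ∀ i, AnalyticOnNhd ℂ (y i) Ω := fun i s hs =>
    (hf i (φ s) (hφ s hs).1).comp (hφa s hs)
  have key := AXL d n Ω y hΩ hΩp ⟨_, hΩ0⟩ hya
    (by
      intro i
      obtain ⟨P, hP, hP0⟩ := hT (Fin.cons i e)
      refine ⟨MvPolynomial.finSuccEquiv ℂ d P, ?_, ?_⟩
      · rw [Ne, EmbeddingLike.map_eq_zero_iff]
        exact hP
      · intro s hs
        rw [← MvPolynomial.eval_eq_eval_mv_eval', ← hP0 (φ s) (hφ s hs).1]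
        congr 2
        funext k
        refine Fin.cases ?_ (fun k => ?_) k
        · rfl
        · have h1 := congrFun (hφ s hs).2 k
          simp only [Fin.cons_succ]
          exact h1.symm)
    (by
      intro i v hv
      refine hc i v ?_
      have h1 : f i =ᶠ[𝓝 t₀] fun _ => v := by
        filter_upwards [hback] with t ht
        have := hv (F t) ht.1
        simp only [hy, ht.2] at this
        exact this
      exact fun t ht => (hf i).eqOn_of_preconnected_of_eventuallyEq analyticOnNhd_const hp ht₀ h1 ht)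
    (by
      intro i j hij p q hv
      refine hH i j hij p q ?_
      have h1 : f i =ᶠ[𝓝 t₀] fun t => (p : ℂ) * f j t + q := by
        filter_upwards [hback] with t ht
        have := hv (F t) ht.1
        simp only [hy, ht.2] at this
        exact this
      exact fun t ht => (hf i).eqOn_of_preconnected_of_eventuallyEq
        ((analyticOnNhd_const.mul (hf j)).add analyticOnNhd_const) hp ht₀ h1 ht)
  refine ⟨Finset.univ.image e, Finset.univ, ?_, ?_⟩
  · rw [Finset.card_image_of_injective _ he]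
    simp
    ring
  · intro P hP
    have hκ : ∀ i : ↥(Finset.univ.image e), ∃ k, e k = i := by
      intro i
      obtain ⟨k, -, hk⟩ := Finset.mem_image.1 i.2
      exact ⟨k, hk⟩
    choose κ hκ using hκ
    set ρ : ↥(Finset.univ.image e) ⊕ ↥(Finset.univ : Finset (Fin n)) → Fin n ⊕ Fin d :=
      Sum.elim (fun i => Sum.inr (κ i)) (fun j => Sum.inl j.1) with hρ
    have hρi : Function.Injective ρ := by
      rintro (i | i) (j | j) h
      · simp only [hρ, Sum.elim_inl, Sum.inr.injEq] at h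
        have : i = j := by
          apply Subtype.ext
          rw [← hκ i, ← hκ j, h]
        rw [this]
      · simp [hρ] at h
      · simp [hρ] at h
      · simp only [hρ, Sum.elim_inr, Sum.inl.injEq] at h
        rw [Subtype.ext h]
    obtain ⟨s, hs, hpole, hne⟩ := key
      (MvPolynomial.sumAlgEquiv ℂ (Fin n) (Fin d) (MvPolynomial.rename ρ P)) (by
        rw [Ne, EmbeddingLike.map_eq_zero_iff]
        intro h0
        apply hP
        apply MvPolynomial.rename_injective ρ hρi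
        rw [h0, map_zero])
    refine ⟨φ s, (hφ s hs).1, fun j _ k => hpole j k, ?_⟩
    rw [eval_sum, MvPolynomial.eval_rename] at hne
    have h1 : (Sum.elim (fun i => Complex.Gamma (y i s)) s ∘ ρ) =
        Sum.elim (fun i : ↥(Finset.univ.image e) => f i (φ s))
          fun j : ↥(Finset.univ : Finset (Fin n)) => Complex.Gamma (f j (φ s)) := by
      funext x
      rcases x with i | j
      · simp only [hρ, Function.comp_apply, Sum.elim_inl, Sum.elim_inr]
        have h2 := congrFun (hφ s hs).2 (κ i)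
        rw [← h2, hF]
        simp only [hκ]
      · simp only [hρ, Function.comp_apply, Sum.elim_inl, Sum.elim_inr, hy]
    rw [h1] at hne
    exact hne

end Pool.Agent.J4H74.AS
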