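import Pool.Agent.J4H74.AS.Slice

set_option autoImplicit false

/-!
Germs of codimension at most `c`, families and towers of these.
-/

namespace Pool.Agent.J4H74.AS.Slice

open Filter Topology Set

theorem full_codim (AXL : AxL) {c : ℕ}
    (hB : ∀ m ≤ c + 1, ∀ (D : Set (Fin 1 → ℂ)) (f : Fin m → (Fin 1 → ℂ) → ℂ),
      Germ D f → Full D f)
    {d n : ℕ} {D : Set (Fin d → ℂ)} {f : Fin n → (Fin d → ℂ) → ℂ} (hG : Germ D f)
    (h : n ≤ d + c ∨ Low D f ∨ High D f) : Full D f := by
  rcases h with h | h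
  · rcases Nat.eq_zero_or_pos d with hd | hd
    · subst hd
      have hn : n = 0 := by
        by_contra hn
        obtain ⟨-, -, -, hc, -, t₀, ht₀, -⟩ := hG
        refine hc ⟨0, by omega⟩ (f ⟨0, by omega⟩ t₀) fun t _ => ?_
        rw [Subsingleton.elim t t₀]
      subst hn
      exact full AXL hG (Or.inl (by omega))
    · obtain ⟨d, rfl⟩ : ∃ k, d = k + 1 := ⟨d - 1, by omega⟩
      exact codim hB d n h D f hG
  · exact full AXL hG (Or.inr h)

end Pool.Agent.J4H74.AS.Slice
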