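import Pool.Agent.J4H74.AS.Pts
import Pool.Agent.J4H69.AX.Gam

set_option autoImplicit false

/-!
Generic translates.
-/

namespace Pool.Agent.J4H74.AS

open Filter Topology Set

lemma differentiable_eval {n : ℕ} {σ : Type} {w : (Fin n → ℂ) → σ → ℂ}
    (hw : ∀ s, Differentiable ℂ fun c => w c s) (p : MvPolynomial σ ℂ) :
    Differentiable ℂ fun c => MvPolynomial.eval (w c) p := by
  induction p using MvPolynomial.induction_on with
  | C a => simp
  | add p q hp hq =>
    simp only [map_add]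
    exact hp.add hq
  | mul_X p i hp =>
    simp only [map_mul, MvPolynomial.eval_X]
    exact hp.mul (hw i)

lemma eval_det {N n K : ℕ} {b : Fin K → (Fin N → ℂ) → ℂ} {γ : Fin K → (Fin n →₀ ℕ)}
    (t : Fin K → (Fin N → ℂ)) (y : Fin K × Fin n → ℂ) :
    MvPolynomial.eval y (Matrix.det (Matrix.of fun i m : Fin K =>
      MvPolynomial.C (b m (t i)) * ∏ j, MvPolynomial.X (i, j) ^ γ m j)) =
      Matrix.det (Matrix.of fun i m : Fin K => vec b γ (t i) (fun j => y (i, j)) m) := by
  rw [RingHom.map_det]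
  congr 1
  ext i m
  simp [vec]

theorem exists_H (AXL : AxL) {N n K : ℕ} {D : Set (Fin N → ℂ)} (hD : IsOpen D)
    (hp : IsPreconnected D) (hne : D.Nonempty) {f : Fin n → (Fin N → ℂ) → ℂ}
    (hf : ∀ i, AnalyticOnNhd ℂ (f i) D) (hc : ∀ i, ∀ v : ℂ, ¬ ∀ t ∈ D, f i t = v)
    {κ : Type} {b : κ → (Fin N → ℂ) → ℂ} (hba : ∀ k, AnalyticOnNhd ℂ (b k) D)
    (hb : LinearIndependent ℂ (fun k : κ => (fun t : D => b k t)))
    (p : Fin K → κ × (Fin n →₀ ℕ)) (hinj : Function.Injective p) :
    ∃ H : (Fin n → ℂ) → ℂ, (Differentiable ℂ H ∧ ∃ c, H c ≠ 0) ∧ ∀ c, H c ≠ 0 →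
      ∀ r : Fin K → ℂ, r ≠ 0 → ∃ t ∈ D, (∀ j, ∀ l : ℕ, f j t + c j ≠ -l) ∧
        ∑ m, r m * (b (p m).1 t * ∏ j, Complex.Gamma (f j t + c j) ^ (p m).2 j) ≠ 0 := by
  classical
  obtain ⟨t, x, ht, hq, hind⟩ := choose_points hD hp hne hf hc (b := fun m => b (p m).1)
    (fun m => hba _) (γ := fun m => (p m).2) (indep_prod hb hinj) K le_rfl
  set G : MvPolynomial (Fin K × Fin n) ℂ := Matrix.det (Matrix.of fun i m : Fin K =>
      MvPolynomial.C (b (p m).1 (t i)) * ∏ j, MvPolynomial.X (i, j) ^ (p m).2 j) with hGdef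
  have hGe : ∀ y : Fin K × Fin n → ℂ, MvPolynomial.eval y G =
      Matrix.det (Matrix.of fun i m : Fin K =>
        vec (fun m => b (p m).1) (fun m => (p m).2) (t i) (fun j => y (i, j)) m) := by
    intro y
    rw [hGdef]
    exact eval_det (b := fun m => b (p m).1) (γ := fun m => (p m).2) t y
  have hG : G ≠ 0 := by
    intro h0
    have h1 := hGe fun s => x s.1 s.2
    rw [h0, map_zero] at h1
    have h2 : IsUnit (Matrix.of fun i m : Fin K =>
        vec (fun m => b (p m).1) (fun m => (p m).2) (t i) (x i) m) := by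
      rw [← Matrix.linearIndependent_rows_iff_isUnit]
      exact hind
    rw [Matrix.isUnit_iff_isUnit_det] at h2
    exact h2.ne_zero h1.symm
  -- a point
  obtain ⟨c₀, hc₀, hc₀G⟩ : ∃ c : Fin n → ℂ, (∀ i j, ∀ l : ℕ, f j (t i) + c j ≠ -l) ∧
      MvPolynomial.eval (fun s : Fin K × Fin n => Complex.Gamma (f s.2 (t s.1) + c s.2)) G ≠ 0 := by
    set e : Fin (K * n) ≃ Fin K × Fin n := finProdFinEquiv.symm with he
    have key := AXL n (K * n) univ (fun s c => f (e s).2 (t (e s).1) + c (e s).2) isOpen_univ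
      isPreconnected_univ univ_nonempty
      (fun s => analyticOnNhd_const.add
        (fun c _ => (ContinuousLinearMap.proj (R := ℂ) (φ := fun _ : Fin n => ℂ)
          (e s).2).analyticAt c))
      (by
        intro s
        refine ⟨Polynomial.X - Polynomial.C (MvPolynomial.C (f (e s).2 (t (e s).1)) +
          MvPolynomial.X (e s).2), Polynomial.X_sub_C_ne_zero _, fun c _ => ?_⟩
        simp)
      (by
        intro s v hv
        have h1 := hv 0 (mem_univ _)
        have h2 := hv (fun _ => 1) (mem_univ _)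
        simp only [Pi.zero_apply, add_zero] at h1 h2
        rw [h1] at h2
        simp at h2)
      (by
        intro s s' hss p' q' hv
        by_cases hj : (e s).2 = (e s').2
        · have hi : (e s).1 ≠ (e s').1 := fun hi => hss (e.injective (Prod.ext hi hj))
          have h1 := hv 0 (mem_univ _)
          have h2 := hv (fun _ => 1) (mem_univ _)
          simp only [Pi.zero_apply, add_zero] at h1 h2
          have h3 : (p' : ℂ) = 1 := by linear_combination h1 - h2
          rw [h3, one_mul, hj] at h1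
          exact hq _ _ hi _ q' h1
        · have h1 := hv 0 (mem_univ _)
          have h2 := hv (Pi.single (e s).2 1) (mem_univ _)
          simp only [Pi.zero_apply, add_zero, Pi.single_eq_same] at h1 h2
          rw [Pi.single_eq_of_ne (Ne.symm hj), add_zero, h1] at h2
          simp at h2)
      ((MvPolynomial.rename e.symm G).map MvPolynomial.C)
      (by
        intro h0
        apply hG
        apply MvPolynomial.rename_injective _ e.symm.injective
        apply MvPolynomial.map_injective _ (MvPolynomial.C_injective (Fin n) ℂ)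
        rw [h0, map_zero, map_zero])
    obtain ⟨c, -, hpole, hne'⟩ := key
    refine ⟨c, fun i j l => ?_, ?_⟩
    · have h1 := hpole (e.symm (i, j)) l
      simpa using h1
    · rw [MvPolynomial.map_map] at hne'
      have h1 : (MvPolynomial.eval c).comp (MvPolynomial.C (σ := Fin n) (R := ℂ)) =
          RingHom.id ℂ := by
        ext a
        simp
      rw [h1, MvPolynomial.map_id, MvPolynomial.eval_rename] at hne'
      have h2 : ((fun s => Complex.Gamma (f (e s).2 (t (e s).1) + c (e s).2)) ∘ e.symm) =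
          fun s : Fin K × Fin n => Complex.Gamma (f s.2 (t s.1) + c s.2) := by
        funext s
        simp
      rw [h2] at hne'
      exact hne'
  obtain ⟨G', hG'⟩ := Pool.Agent.J4H69.AX.ginvert G
  have hG'' := (hG' (RingHom.id ℂ)).2
  rw [MvPolynomial.map_id, MvPolynomial.map_id] at hG''
  set w : (Fin n → ℂ) → Fin K × Fin n → ℂ :=
    fun c s => (Complex.Gamma (f s.2 (t s.1) + c s.2))⁻¹ with hw
  have hwd : ∀ s, Differentiable ℂ fun c => w c s := by
    intro s
    exact Complex.differentiable_one_div_Gamma.comp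
      ((differentiable_const _).add (differentiable_apply s.2))
  have hrel : ∀ c, (∀ s, w c s ≠ 0) → MvPolynomial.eval (w c) G' =
      (∏ s, w c s ^ G.totalDegree) *
        MvPolynomial.eval (fun s : Fin K × Fin n => Complex.Gamma (f s.2 (t s.1) + c s.2)) G := by
    intro c hcs
    refine hG'' _ _ fun s => ?_
    have h1 := hcs s
    simp only [hw, ne_eq, inv_eq_zero] at h1
    exact inv_mul_cancel₀ h1
  have hHe : ∀ c, MvPolynomial.eval (w c) (G' * ∏ s, MvPolynomial.X s) =
      MvPolynomial.eval (w c) G' * ∏ s, w c s := by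
    intro c
    simp
  refine ⟨fun c => MvPolynomial.eval (w c) (G' * ∏ s, MvPolynomial.X s), ⟨?_, c₀, ?_⟩, ?_⟩
  · exact differentiable_eval hwd _
  · have h1 : ∀ s, w c₀ s ≠ 0 := by
      intro s
      rw [hw]
      simp only [ne_eq, inv_eq_zero, Complex.Gamma_eq_zero_iff]
      push Not
      exact fun l => hc₀ s.1 s.2 l
    simp only [hHe]
    rw [hrel c₀ h1]
    refine mul_ne_zero (mul_ne_zero ?_ hc₀G) ?_
    · exact Finset.prod_ne_zero_iff.2 fun s _ => pow_ne_zero _ (h1 s)
    · exact Finset.prod_ne_zero_iff.2 fun s _ => h1 s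
  · intro c hHc r hr
    simp only [hHe] at hHc
    have h1 : ∀ s, w c s ≠ 0 := fun s =>
      Finset.prod_ne_zero_iff.1 (right_ne_zero_of_mul hHc) s (Finset.mem_univ s)
    have h2 := left_ne_zero_of_mul hHc
    rw [hrel c h1] at h2
    have h3 := right_ne_zero_of_mul h2
    rw [hGe] at h3
    have h4 : (Matrix.of fun i m : Fin K =>
        vec (fun m => b (p m).1) (fun m => (p m).2) (t i)
          (fun j => Complex.Gamma (f j (t i) + c j)) m).mulVec r ≠ 0 := fun h0 =>
      hr (Matrix.eq_zero_of_mulVec_eq_zero h3 h0)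
    obtain ⟨i, hi⟩ := Function.ne_iff.1 h4
    refine ⟨t i, ht i, ?_, ?_⟩
    · intro j l hjl
      have := h1 (i, j)
      rw [hw] at this
      simp only [ne_eq, inv_eq_zero, Complex.Gamma_eq_zero_iff] at this
      exact this ⟨l, hjl⟩
    · rw [Matrix.mulVec, dotProduct] at hi
      simp only [Matrix.of_apply, vec, Pi.zero_apply] at hi
      have h5 : ∑ m, r m * (b (p m).1 (t i) *
          ∏ j, Complex.Gamma (f j (t i) + c j) ^ (p m).2 j) =
          ∑ m, b (p m).1 (t i) * (∏ j, Complex.Gamma (f j (t i) + c j) ^ (p m).2 j) * r m :=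
        Finset.sum_congr rfl fun m _ => mul_comm _ _
      rw [h5]
      exact hi

theorem generic (AXL : AxL) {N n : ℕ} {D : Set (Fin N → ℂ)} (hD : IsOpen D)
    (hp : IsPreconnected D) (hne : D.Nonempty) {f : Fin n → (Fin N → ℂ) → ℂ}
    (hf : ∀ i, AnalyticOnNhd ℂ (f i) D) (hc : ∀ i, ∀ v : ℂ, ¬ ∀ t ∈ D, f i t = v)
    {φ : ℕ → (Fin N → ℂ) → ℂ} (hφ : ∀ k, AnalyticOnNhd ℂ (φ k) D) :
    ∃ H : ℕ → (Fin n → ℂ) → ℂ, (∀ m, Differentiable ℂ (H m) ∧ ∃ c, H m c ≠ 0) ∧
      ∀ c, (∀ m, H m c ≠ 0) → ∀ P : MvPolynomial (Fin n) (MvPolynomial ℕ ℂ),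
        (∃ t ∈ D, P.map (MvPolynomial.eval fun k => φ k t) ≠ 0) →
        ∃ t ∈ D, (∀ j, ∀ l : ℕ, f j t + c j ≠ -l) ∧
          MvPolynomial.eval (fun j => Complex.Gamma (f j t + c j))
            (P.map (MvPolynomial.eval fun k => φ k t)) ≠ 0 := by
  classical
  set ψ : (ℕ →₀ ℕ) → (Fin N → ℂ) → ℂ :=
    fun β t => MvPolynomial.eval (fun k => φ k t) (MvPolynomial.monomial β 1) with hψ
  have hψa : ∀ β, AnalyticOnNhd ℂ (ψ β) D := by
    intro β
    have h1 : ψ β = fun t => ∏ k ∈ β.support, φ k t ^ β k := by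
      funext t
      rw [hψ]
      simp only [MvPolynomial.eval_monomial, one_mul]
      rfl
    rw [h1]
    exact Finset.analyticOnNhd_fun_prod _ fun k _ => (hφ k).pow _
  obtain ⟨B, hBS, hspan, hBli⟩ := exists_linearIndependent ℂ
    (Set.range fun β : ℕ →₀ ℕ => fun t : D => ψ β t)
  have hcB : Countable B := ((countable_range _).mono hBS).to_subtype
  choose β hβ using fun k : B => hBS k.2
  have hb : LinearIndependent ℂ (fun k : B => (fun t : D => ψ (β k) t)) := by
    have h1 : (fun k : B => (fun t : D => ψ (β k) t)) = fun k : B => (k : D → ℂ) := by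
      funext k
      exact hβ k
    rw [h1]
    exact hBli
  -- expansions of the coefficient functions
  have hexp : ∀ q : MvPolynomial ℕ ℂ, ∃ a : B →₀ ℂ, ∀ t ∈ D,
      MvPolynomial.eval (fun k => φ k t) q = ∑ k ∈ a.support, a k * ψ (β k) t := by
    intro q
    have h1 : (fun t : D => MvPolynomial.eval (fun k => φ k t) q) ∈
        Submodule.span ℂ (Set.range fun k : B => (k : D → ℂ)) := by
      rw [Subtype.range_coe, hspan]
      have h2 : (fun t : D => MvPolynomial.eval (fun k => φ k t) q) =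
          ∑ β ∈ q.support, q.coeff β • (fun t : D => ψ β t) := by
        funext t
        rw [Finset.sum_apply]
        conv_lhs => rw [q.as_sum, map_sum]
        refine Finset.sum_congr rfl fun β _ => ?_
        simp only [hψ, Pi.smul_apply, smul_eq_mul, MvPolynomial.eval_monomial, one_mul]
      rw [h2]
      exact Submodule.sum_mem _ fun β _ =>
        Submodule.smul_mem _ _ (Submodule.subset_span ⟨β, rfl⟩)
    obtain ⟨a, ha⟩ := Finsupp.mem_span_range_iff_exists_finsupp.1 h1
    refine ⟨a, fun t ht => ?_⟩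
    have h2 := congrFun ha ⟨t, ht⟩
    rw [← h2, Finsupp.sum, Finset.sum_apply]
    refine Finset.sum_congr rfl fun k _ => ?_
    simp only [Pi.smul_apply, smul_eq_mul]
    rw [← hβ k]
  choose a ha using hexp
  -- the functions `H`
  set T := Σ K : ℕ, {p : Fin K → B × (Fin n →₀ ℕ) // Function.Injective p} with hT
  have hTne : Nonempty T := ⟨⟨0, ⟨Fin.elim0, fun i => i.elim0⟩⟩⟩
  obtain ⟨s, hs⟩ := exists_surjective_nat T
  choose H hH1 hH2 using fun τ : T => exists_H AXL hD hp hne hf hc
    (b := fun k : B => ψ (β k)) (fun k => hψa _) hb τ.2.1 τ.2.2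
  refine ⟨fun m => H (s m), fun m => hH1 (s m), fun c hcc P hP => ?_⟩
  have hcH : ∀ τ : T, H τ c ≠ 0 := by
    intro τ
    obtain ⟨m, rfl⟩ := hs τ
    exact hcc m
  set KK : Finset B := P.support.biUnion fun γ => (a (P.coeff γ)).support with hKK
  set M : Finset (B × (Fin n →₀ ℕ)) := KK ×ˢ P.support with hM
  set e := M.equivFin with he
  set p : Fin M.card → B × (Fin n →₀ ℕ) := fun m => (e.symm m).1 with hpdef
  have hpinj : Function.Injective p := fun m m' h =>
    e.symm.injective (Subtype.ext h)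
  obtain ⟨t₀, ht₀, hPt⟩ := hP
  obtain ⟨γ₀, hγ₀⟩ := MvPolynomial.ne_zero_iff.1 hPt
  rw [MvPolynomial.coeff_map] at hγ₀
  have hγs : γ₀ ∈ P.support := by
    rw [MvPolynomial.mem_support_iff]
    intro h0
    rw [h0, map_zero] at hγ₀
    exact hγ₀ rfl
  set r : Fin M.card → ℂ := fun m => a (P.coeff (p m).2) (p m).1 with hr
  have hr0 : r ≠ 0 := by
    rw [ha _ t₀ ht₀] at hγ₀
    obtain ⟨k, hk, hk0⟩ := Finset.exists_ne_zero_of_sum_ne_zero hγ₀
    have hmem : (k, γ₀) ∈ M := by
      rw [hM, Finset.mem_product]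
      exact ⟨Finset.mem_biUnion.2 ⟨γ₀, hγs, hk⟩, hγs⟩
    intro h0
    have h1 := congrFun h0 (e ⟨(k, γ₀), hmem⟩)
    rw [hr] at h1
    simp only [hpdef, Equiv.symm_apply_apply, Pi.zero_apply] at h1
    exact left_ne_zero_of_mul hk0 h1
  obtain ⟨t, ht, hpole, hsum⟩ := hH2 ⟨M.card, ⟨p, hpinj⟩⟩ c (hcH _) r hr0
  refine ⟨t, ht, hpole, ?_⟩
  have h1 : ∑ m, r m * (ψ (β (p m).1) t * ∏ j, Complex.Gamma (f j t + c j) ^ (p m).2 j) =
      MvPolynomial.eval (fun j => Complex.Gamma (f j t + c j))
        (P.map (MvPolynomial.eval fun k => φ k t)) := by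
    have h2 : ∑ m, r m * (ψ (β (p m).1) t * ∏ j, Complex.Gamma (f j t + c j) ^ (p m).2 j) =
        ∑ x ∈ M, a (P.coeff x.2) x.1 *
          (ψ (β x.1) t * ∏ j, Complex.Gamma (f j t + c j) ^ x.2 j) := by
      rw [← Finset.sum_coe_sort M]
      exact Fintype.sum_equiv e.symm _ _ fun m => rfl
    rw [h2, hM, Finset.sum_product_right]
    conv_rhs => rw [P.as_sum, map_sum, map_sum]
    refine Finset.sum_congr rfl fun γ hγ => ?_
    rw [MvPolynomial.map_monomial, MvPolynomial.eval_monomial,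
      Finsupp.prod_fintype _ _ (fun i => pow_zero _), ha _ t ht, Finset.sum_mul]
    have h3 : (a (P.coeff γ)).support ⊆ KK := fun k hk => Finset.mem_biUnion.2 ⟨γ, hγ, hk⟩
    refine Eq.trans (Finset.sum_subset h3 fun k _ hk => ?_).symm ?_
    · rw [Finsupp.notMem_support_iff.1 hk, zero_mul]
    · refine Finset.sum_congr rfl fun k _ => ?_
      ring
  rw [← h1]
  exact hsum

end Pool.Agent.J4H74.AS
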