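import Pool.Agent.J4H74.AS.Alg

set_option autoImplicit false

/-!
Choice of points.
-/

namespace Pool.Agent.J4H74.AS

open Filter Topology Set

/-- a point at which countably many analytic functions do not vanish -/
lemma generic_point {N : ℕ} {D : Set (Fin N → ℂ)} (hD : IsOpen D) (hp : IsPreconnected D)
    (hne : D.Nonempty) {ι : Type} [Countable ι] {h : ι → (Fin N → ℂ) → ℂ}
    (ha : ∀ i, AnalyticOnNhd ℂ (h i) D) (hn : ∀ i, ∃ t ∈ D, h i t ≠ 0) :
    ∃ t ∈ D, ∀ i, h i t ≠ 0 := by
  have : LocallyCompactSpace D := hD.locallyCompactSpace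
  have : Nonempty D := hne.to_subtype
  have hdense : Dense (⋂ i, {t : D | h i t.1 ≠ 0}) := by
    refine dense_iInter_of_isOpen ?_ ?_
    · intro i
      have h1 : Continuous fun t : D => h i t.1 := by
        rw [continuous_iff_continuousAt]
        intro t
        exact ((ha i t.1 t.2).continuousAt).comp continuous_subtype_val.continuousAt
      exact isOpen_ne_fun h1 continuous_const
    · intro i
      rw [dense_iff_inter_open]
      rintro U hU ⟨x, hx⟩
      by_contra hcon
      obtain ⟨V, hV, rfl⟩ := isOpen_induced_iff.1 hU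
      have h1 : h i =ᶠ[𝓝 x.1] fun _ => (0 : ℂ) := by
        filter_upwards [(hV.inter hD).mem_nhds ⟨hx, x.2⟩] with t ht
        by_contra h2
        exact hcon ⟨⟨t, ht.2⟩, ht.1, h2⟩
      obtain ⟨t, ht, h3⟩ := hn i
      exact h3 ((ha i).eqOn_of_preconnected_of_eventuallyEq analyticOnNhd_const hp x.2 h1 ht)
  obtain ⟨t, ht⟩ := hdense.nonempty
  exact ⟨t.1, t.2, fun i => by simpa using mem_iInter.1 ht i⟩

/-- the vectors of the values -/
noncomputable def vec {N n K : ℕ} (b : Fin K → (Fin N → ℂ) → ℂ) (γ : Fin K → (Fin n →₀ ℕ))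
    (t : Fin N → ℂ) (x : Fin n → ℂ) : Fin K → ℂ :=
  fun m => b m t * ∏ j, x j ^ γ m j

lemma choose_points {N n K : ℕ} {D : Set (Fin N → ℂ)} (hD : IsOpen D) (hp : IsPreconnected D)
    (hne : D.Nonempty) {f : Fin n → (Fin N → ℂ) → ℂ} (hf : ∀ i, AnalyticOnNhd ℂ (f i) D)
    (hc : ∀ i, ∀ v : ℂ, ¬ ∀ t ∈ D, f i t = v)
    {b : Fin K → (Fin N → ℂ) → ℂ} (hb : ∀ m, AnalyticOnNhd ℂ (b m) D)
    {γ : Fin K → (Fin n →₀ ℕ)}
    (hli : ∀ r : Fin K → ℂ, r ≠ 0 → ∃ t ∈ D, ∃ x : Fin n → ℂ, ∑ m, r m * vec b γ t x m ≠ 0)
    (L : ℕ) (hL : L ≤ K) :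
    ∃ (t : Fin L → (Fin N → ℂ)) (x : Fin L → Fin n → ℂ), (∀ i, t i ∈ D) ∧
      (∀ i i', i ≠ i' → ∀ j, ∀ q : ℚ, f j (t i) ≠ f j (t i') + q) ∧
      LinearIndependent ℂ (fun i => vec b γ (t i) (x i)) := by
  induction L with
  | zero =>
    refine ⟨Fin.elim0, Fin.elim0, fun i => i.elim0, fun i => i.elim0, ?_⟩
    exact linearIndependent_empty_type
  | succ L ih =>
    obtain ⟨t, x, ht, hq, hind⟩ := ih (by omega)
    -- a vector orthogonal to all
    obtain ⟨r, hr0, hr⟩ : ∃ r : Fin K → ℂ, r ≠ 0 ∧ ∀ i, ∑ m, r m * vec b γ (t i) (x i) m = 0 := by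
      set Φ : (Fin K → ℂ) →ₗ[ℂ] (Fin L → ℂ) :=
        { toFun := fun r i => ∑ m, r m * vec b γ (t i) (x i) m
          map_add' := by
            intro r s
            funext i
            simp only [Pi.add_apply, add_mul, Finset.sum_add_distrib]
          map_smul' := by
            intro a r
            funext i
            simp only [Pi.smul_apply, smul_eq_mul, RingHom.id_apply, Finset.mul_sum, mul_assoc] }
        with hΦ
      have hker : LinearMap.ker Φ ≠ ⊥ := by
        refine LinearMap.ker_ne_bot_of_finrank_lt ?_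
        simp
        omega
      obtain ⟨r, hr, hr0⟩ := (Submodule.ne_bot_iff _).1 hker
      refine ⟨r, hr0, fun i => ?_⟩
      have := congrFun (LinearMap.mem_ker.1 hr) i
      simpa [hΦ] using this
    obtain ⟨t₁, ht₁, x₁, hx₁⟩ := hli r hr0
    obtain ⟨t₂, ht₂, hgen⟩ := generic_point hD hp hne (ι := Option (Fin L × Fin n × ℚ))
      (h := fun o => match o with
        | none => fun t => ∑ m, r m * vec b γ t x₁ m
        | some p => fun s => f p.2.1 s - (f p.2.1 (t p.1) + p.2.2))
      (by
        rintro (_ | p)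
        · refine Finset.analyticOnNhd_fun_sum _ fun m _ => ?_
          exact analyticOnNhd_const.mul ((hb m).mul analyticOnNhd_const)
        · exact (hf p.2.1).sub analyticOnNhd_const)
      (by
        rintro (_ | p)
        · exact ⟨t₁, ht₁, hx₁⟩
        · by_contra hcon
          push Not at hcon
          refine hc p.2.1 (f p.2.1 (t p.1) + p.2.2) fun s hs => ?_
          have := hcon s hs
          exact sub_eq_zero.1 this)
    refine ⟨Fin.cons t₂ t, Fin.cons x₁ x, ?_, ?_, ?_⟩
    · intro i
      refine Fin.cases ?_ (fun i => ?_) i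
      · exact ht₂
      · exact ht i
    · intro i i'
      refine Fin.cases ?_ (fun i => ?_) i
      · refine Fin.cases ?_ (fun i' => ?_) i'
        · intro h; exact absurd rfl h
        · intro _ j q
          have h1 := hgen (some (i', j, q))
          simp only [Fin.cons_zero, Fin.cons_succ]
          intro h2
          exact h1 (sub_eq_zero.2 h2)
      · refine Fin.cases ?_ (fun i' => ?_) i'
        · intro _ j q
          have h1 := hgen (some (i, j, -q))
          simp only [Fin.cons_zero, Fin.cons_succ]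
          intro h2
          refine h1 (sub_eq_zero.2 ?_)
          rw [h2]
          push_cast
          ring
        · intro h j q
          simp only [Fin.cons_succ]
          exact hq i i' (fun h3 => h (by rw [h3])) j q
    · have h1 : (fun i : Fin (L + 1) => vec b γ ((Fin.cons t₂ t : Fin (L + 1) → _) i)
          ((Fin.cons x₁ x : Fin (L + 1) → _) i)) =
          Fin.cons (vec b γ t₂ x₁) (fun i => vec b γ (t i) (x i)) := by
        funext i
        refine Fin.cases ?_ (fun i => ?_) i
        · rfl
        · rfl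
      rw [h1, linearIndependent_finCons]
      refine ⟨hind, fun hmem => ?_⟩
      have h2 : ∀ v ∈ Submodule.span ℂ (Set.range fun i => vec b γ (t i) (x i)),
          ∑ m, r m * v m = 0 := by
        intro v hv
        induction hv using Submodule.span_induction with
        | mem v hv =>
          obtain ⟨i, rfl⟩ := hv
          exact hr i
        | zero => simp
        | add u v _ _ hu hv =>
          simp only [Pi.add_apply, mul_add, Finset.sum_add_distrib, hu, hv, add_zero]
        | smul a v _ hv =>
          have h3 : ∑ m, r m * (a • v) m = a * ∑ m, r m * v m := by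
            rw [Finset.mul_sum]
            refine Finset.sum_congr rfl fun m _ => ?_
            simp only [Pi.smul_apply, smul_eq_mul]
            ring
          rw [h3, hv, mul_zero]
      exact hgen none (h2 _ hmem)

/-- products of linearly independent functions and monomials -/
lemma indep_prod {N n K : ℕ} {D : Set (Fin N → ℂ)} {κ : Type} {b : κ → (Fin N → ℂ) → ℂ}
    (hb : LinearIndependent ℂ (fun k : κ => (fun t : D => b k t)))
    {k : Fin K → κ} {γ : Fin K → (Fin n →₀ ℕ)}
    (hinj : Function.Injective fun m => (k m, γ m)) (r : Fin K → ℂ) (hr : r ≠ 0) :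
    ∃ t ∈ D, ∃ x : Fin n → ℂ, ∑ m, r m * vec (fun m => b (k m)) γ t x m ≠ 0 := by
  classical
  by_contra hcon
  push Not at hcon
  apply hr
  funext m₀
  have hcoef : ∀ t ∈ D, ∑ m : {m : Fin K // γ m = γ m₀}, r m * b (k m) t = 0 := by
    intro t ht
    set p : MvPolynomial (Fin n) ℂ := ∑ m, MvPolynomial.monomial (γ m) (r m * b (k m) t) with hp
    have hp0 : p = 0 := by
      apply MvPolynomial.funext
      intro x
      rw [hp, map_sum, map_zero, ← hcon t ht x]
      refine Finset.sum_congr rfl fun m _ => ?_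
      rw [MvPolynomial.eval_monomial, vec, Finsupp.prod_fintype _ _ (fun i => pow_zero _)]
      ring
    have h1 := congrArg (MvPolynomial.coeff (γ m₀)) hp0
    rw [hp, MvPolynomial.coeff_sum, MvPolynomial.coeff_zero] at h1
    simp only [MvPolynomial.coeff_monomial] at h1
    rw [← Finset.sum_filter, Finset.sum_subtype (p := fun m => γ m = γ m₀)
      (Finset.univ.filter fun m => γ m = γ m₀) (by simp)] at h1
    exact h1
  have hli : LinearIndependent ℂ
      (fun m : {m : Fin K // γ m = γ m₀} => (fun t : D => b (k m) t)) := by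
    refine hb.comp (fun m : {m : Fin K // γ m = γ m₀} => k m) ?_
    intro m m' h
    apply Subtype.ext
    apply hinj
    simp only [Prod.mk.injEq]
    exact ⟨h, by rw [m.2, m'.2]⟩
  have h2 := Fintype.linearIndependent_iff.1 hli (fun m => r m) (by
    funext t
    simp only [Finset.sum_apply, Pi.smul_apply, smul_eq_mul, Pi.zero_apply]
    exact hcoef t t.2) ⟨m₀, rfl⟩
  exact h2

end Pool.Agent.J4H74.AS
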